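import Mathlib

/-!
# LS-01: the counting lemma for words (Mathlib only)

`S` is a finite set of words of length `m` over `Fin n`. For a word `f ∈ S` let `N_j(f)` be the number
of the words in `S` with the same first `j` letters (`N_0 = |S|`, `N_m = 1`). For a mask `J` (list of
Booleans of length `m`) let `x_J(f) = ∏_{j ∉ J} N_{j+1}(f) / N_j(f)`, `y_J(f) = ∏_{j ∈ J} N_{j+1}(f) / N_j(f)`.

(A) For every mask `J` and every word `l`: `∑_{f ∈ S, sel J f = l} x_J(f) ≤ 1` (induction on `m`, derivatives
`der a S = {f : a :: f ∈ S}`: if the first letter of `J` is `false` the sum is at most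
`∑_a |der a S| / |S| ≤ 1`, if it is `true` only one letter `a` occurs).
(B) `x_J(f) y_J(f) = 1 / |S|` for `f ∈ S`, and `∏_r y_{J r}(f) ≤ (1 / |S|) ^ κ` if every position is in at least
`κ` of the masks `J r`.

So for every `f ∈ S` some `r` has `x_{J r}(f) ^ R ≥ ∏_r x_{J r}(f) ≥ |S| ^ κ / |S| ^ R`. Summing the `x` over
all pairs (mask, word in `𝓛`) we get by (A): `∑_f x_{J r(f)}(f) ≤ M = 2 ^ m |𝓛|`, so some `f` has
`x ≤ M / |S|`, and `|S| ^ κ / |S| ^ R ≤ (M / |S|) ^ R`.
-/

set_option autoImplicit false

namespace Pool.Agent.Helper16.LS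

variable {α : Type}

/-- The letters of `f` at the positions of the mask. -/
def sel : List Bool → List α → List α
  | true :: J, a :: f => a :: sel J f
  | false :: J, _ :: f => sel J f
  | [], _ => []
  | _ :: _, [] => []

/-- The words `f` with `a :: f ∈ S`. -/
def der {n : ℕ} (a : Fin n) (S : Finset (List (Fin n))) : Finset (List (Fin n)) :=
  (S.filter (fun f => f.head? = some a)).image List.tail

theorem mem_der {n : ℕ} {a : Fin n} {S : Finset (List (Fin n))} {f : List (Fin n)} :
    f ∈ der a S ↔ a :: f ∈ S := by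
  unfold der
  rw [Finset.mem_image]
  constructor
  · rintro ⟨g, hg, rfl⟩
    rw [Finset.mem_filter] at hg
    rcases g with _ | ⟨b, g⟩
    · simp at hg
    · have h1 : b = a := by simpa using hg.2
      rw [← h1]
      exact hg.1
  · intro h
    exact ⟨a :: f, Finset.mem_filter.2 ⟨h, rfl⟩, rfl⟩

theorem sum_der {n : ℕ} (S : Finset (List (Fin n))) (hS : ∀ f ∈ S, f ≠ [])
    (F : List (Fin n) → ℝ) : ∑ f ∈ S, F f = ∑ a, ∑ f ∈ der a S, F (a :: f) := by
  rw [Finset.sum_sigma']
  symm
  refine Finset.sum_nbij (fun x : (_ : Fin n) × List (Fin n) => x.1 :: x.2) ?_ ?_ ?_ ?_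
  · intro x hx
    rw [Finset.mem_sigma] at hx
    exact mem_der.1 hx.2
  · rintro ⟨a, f⟩ _ ⟨b, g⟩ _ h
    simp only [List.cons.injEq] at h
    obtain ⟨rfl, rfl⟩ := h
    rfl
  · intro f hf
    rw [Finset.mem_coe] at hf
    rcases f with _ | ⟨a, f⟩
    · exact absurd rfl (hS _ hf)
    · refine ⟨⟨a, f⟩, ?_, rfl⟩
      rw [Finset.mem_coe, Finset.mem_sigma]
      exact ⟨Finset.mem_univ _, mem_der.2 hf⟩
  · intro x _
    rfl

theorem card_der {n : ℕ} (S : Finset (List (Fin n))) (hS : ∀ f ∈ S, f ≠ []) :
    ∑ a, ((der a S).card : ℝ) = S.card := by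
  have h := sum_der S hS (fun _ => 1)
  simp only [Finset.sum_const, nsmul_eq_mul, mul_one] at h
  exact h.symm

theorem card_der_le {n : ℕ} (S : Finset (List (Fin n))) (a : Fin n) :
    (der a S).card ≤ S.card := by
  unfold der
  exact Finset.card_image_le.trans (Finset.card_filter_le _ _)

/-- The product of the ratios outside the mask. -/
noncomputable def xw {n : ℕ} : Finset (List (Fin n)) → List (Fin n) → List Bool → ℝ
  | _, [], _ => 1
  | _, _ :: _, [] => 1
  | S, a :: f, true :: J => xw (der a S) f J
  | S, a :: f, false :: J => ((der a S).card / S.card : ℝ) * xw (der a S) f J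

/-- The product of the ratios inside the mask. -/
noncomputable def yw {n : ℕ} : Finset (List (Fin n)) → List (Fin n) → List Bool → ℝ
  | _, [], _ => 1
  | _, _ :: _, [] => 1
  | S, a :: f, true :: J => ((der a S).card / S.card : ℝ) * yw (der a S) f J
  | S, a :: f, false :: J => yw (der a S) f J

theorem xw_nonneg {n : ℕ} : ∀ (f : List (Fin n)) (S : Finset (List (Fin n))) (J : List Bool),
    0 ≤ xw S f J := by
  intro f
  induction f with
  | nil => intro S J; cases J <;> simp [xw]
  | cons a f ih =>
    intro S J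
    rcases J with _ | ⟨b, J⟩
    · simp [xw]
    · cases b
      · have := ih (der a S) J
        simp only [xw]
        positivity
      · exact ih (der a S) J

theorem yw_nonneg {n : ℕ} : ∀ (f : List (Fin n)) (S : Finset (List (Fin n))) (J : List Bool),
    0 ≤ yw S f J := by
  intro f
  induction f with
  | nil => intro S J; cases J <;> simp [yw]
  | cons a f ih =>
    intro S J
    rcases J with _ | ⟨b, J⟩
    · simp [yw]
    · cases b
      · exact ih (der a S) J
      · have := ih (der a S) J
        simp only [yw]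
        positivity

theorem len_der {n m : ℕ} {S : Finset (List (Fin n))} (hS : ∀ f ∈ S, f.length = m + 1)
    (a : Fin n) : ∀ f ∈ der a S, f.length = m := by
  intro f hf
  have := hS _ (mem_der.1 hf)
  simpa using this

theorem ne_nil_of_len {n m : ℕ} {S : Finset (List (Fin n))} (hS : ∀ f ∈ S, f.length = m + 1) :
    ∀ f ∈ S, f ≠ [] := by
  intro f hf h
  have := hS f hf
  rw [h] at this
  simp at this

theorem xw_sum {n : ℕ} (m : ℕ) : ∀ (S : Finset (List (Fin n))) (J : List Bool) (l : List (Fin n)),
    (∀ f ∈ S, f.length = m) → J.length = m →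
    ∑ f ∈ S.filter (fun f => sel J f = l), xw S f J ≤ 1 := by
  induction m with
  | zero =>
    intro S J l hS _
    have h1 : ∀ f ∈ S.filter (fun f => sel J f = l), f = [] := fun f hf =>
      List.length_eq_zero_iff.1 (hS f (Finset.mem_filter.1 hf).1)
    have h2 : ∀ f ∈ S.filter (fun f => sel J f = l), xw S f J = 1 := by
      intro f hf
      rw [h1 f hf]
      cases J <;> rfl
    rw [Finset.sum_congr rfl h2, Finset.sum_const, nsmul_eq_mul, mul_one]
    have h3 : (S.filter (fun f => sel J f = l)).card ≤ 1 :=
      Finset.card_le_one.2 fun f hf g hg => by rw [h1 f hf, h1 g hg]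
    exact_mod_cast h3
  | succ m ih =>
    intro S J l hS hJ
    rcases J with _ | ⟨b, J⟩
    · simp at hJ
    · have hJ' : J.length = m := by simpa using hJ
      rw [Finset.sum_filter, sum_der S (ne_nil_of_len hS)]
      cases b
      · have h1 : ∀ a : Fin n, ∑ f ∈ der a S, (if sel (false :: J) (a :: f) = l then
            xw S (a :: f) (false :: J) else 0) ≤ (der a S).card / S.card := by
          intro a
          have h2 : ∑ f ∈ der a S, (if sel (false :: J) (a :: f) = l then
              xw S (a :: f) (false :: J) else 0) = ((der a S).card / S.card : ℝ) *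
              ∑ f ∈ (der a S).filter (fun f => sel J f = l), xw (der a S) f J := by
            rw [Finset.sum_filter, Finset.mul_sum]
            refine Finset.sum_congr rfl fun f _ => ?_
            simp only [sel, xw]
            split_ifs with h
            · rfl
            · rw [mul_zero]
          rw [h2]
          have h3 := ih (der a S) J l (len_der hS a) hJ'
          have h4 : (0 : ℝ) ≤ (der a S).card / S.card := by positivity
          calc _ ≤ ((der a S).card / S.card : ℝ) * 1 := mul_le_mul_of_nonneg_left h3 h4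
            _ = _ := mul_one _
        refine (Finset.sum_le_sum fun a _ => h1 a).trans ?_
        rw [← Finset.sum_div, card_der S (ne_nil_of_len hS)]
        exact div_self_le_one _
      · rcases l with _ | ⟨c, l⟩
        · have h1 : ∑ a : Fin n, ∑ f ∈ der a S, (if sel (true :: J) (a :: f) = [] then
              xw S (a :: f) (true :: J) else 0) = 0 := by
            refine Finset.sum_eq_zero fun a _ => Finset.sum_eq_zero fun f _ => ?_
            simp [sel]
          rw [h1]
          exact zero_le_one
        · have h1 : ∀ a : Fin n, ∑ f ∈ der a S, (if sel (true :: J) (a :: f) = c :: l then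
              xw S (a :: f) (true :: J) else 0) = if a = c then
              ∑ f ∈ (der c S).filter (fun f => sel J f = l), xw (der c S) f J else 0 := by
            intro a
            split_ifs with hac
            · subst hac
              rw [Finset.sum_filter]
              refine Finset.sum_congr rfl fun f _ => ?_
              simp only [sel, xw, List.cons.injEq, true_and]
            · refine Finset.sum_eq_zero fun f _ => ?_
              simp only [sel, List.cons.injEq, hac, false_and, if_false]
          rw [Finset.sum_congr rfl fun a _ => h1 a, Finset.sum_ite_eq' Finset.univ c]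
          rw [if_pos (Finset.mem_univ _)]
          exact ih (der c S) J l (len_der hS c) hJ'

theorem xw_mul_yw {n : ℕ} (m : ℕ) : ∀ (S : Finset (List (Fin n))) (f : List (Fin n))
    (J : List Bool), (∀ f ∈ S, f.length = m) → J.length = m → f ∈ S →
    xw S f J * yw S f J = 1 / S.card := by
  induction m with
  | zero =>
    intro S f J hS _ hf
    have h1 : S = {[]} := by
      ext g
      rw [Finset.mem_singleton]
      constructor
      · intro hg
        exact List.length_eq_zero_iff.1 (hS g hg)
      · rintro rfl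
        rw [← List.length_eq_zero_iff.1 (hS f hf)]
        exact hf
    have h2 : f = [] := List.length_eq_zero_iff.1 (hS f hf)
    subst h2
    have h3 : xw S [] J = 1 := by cases J <;> rfl
    have h4 : yw S [] J = 1 := by cases J <;> rfl
    rw [h3, h4, h1]
    simp
  | succ m ih =>
    intro S f J hS hJ hf
    rcases J with _ | ⟨b, J⟩
    · simp at hJ
    · rcases f with _ | ⟨a, f⟩
      · exact absurd rfl (ne_nil_of_len hS _ hf)
      · have hJ' : J.length = m := by simpa using hJ
        have hf' : f ∈ der a S := mem_der.2 hf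
        have h1 := ih (der a S) f J (len_der hS a) hJ' hf'
        have h2 : (0 : ℝ) < (der a S).card := by
          exact_mod_cast Finset.card_pos.2 ⟨f, hf'⟩
        have h3 : (0 : ℝ) < S.card := by
          exact_mod_cast Finset.card_pos.2 ⟨_, hf⟩
        have h4 : xw S (a :: f) (b :: J) * yw S (a :: f) (b :: J) =
            ((der a S).card / S.card : ℝ) * (xw (der a S) f J * yw (der a S) f J) := by
          cases b <;> simp only [xw, yw] <;> ring
        rw [h4, h1]
        field_simp

theorem prod_yw {n R κ : ℕ} (m : ℕ) : ∀ (S : Finset (List (Fin n))) (f : List (Fin n))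
    (J : Fin R → List Bool), (∀ f ∈ S, f.length = m) → (∀ r, (J r).length = m) → f ∈ S →
    (∀ j < m, κ ≤ (Finset.univ.filter (fun r => (J r).getD j false = true)).card) →
    ∏ r, yw S f (J r) ≤ (1 / S.card : ℝ) ^ κ := by
  induction m with
  | zero =>
    intro S f J hS _ hf _
    have h1 : S = {[]} := by
      ext g
      rw [Finset.mem_singleton]
      constructor
      · intro hg
        exact List.length_eq_zero_iff.1 (hS g hg)
      · rintro rfl
        rw [← List.length_eq_zero_iff.1 (hS f hf)]
        exact hf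
    have h2 : f = [] := List.length_eq_zero_iff.1 (hS f hf)
    subst h2
    have h4 : ∀ r, yw S [] (J r) = 1 := fun r => by cases J r <;> rfl
    rw [Finset.prod_congr rfl fun r _ => h4 r, h1]
    simp
  | succ m ih =>
    intro S f J hS hJ hf hc
    rcases f with _ | ⟨a, f⟩
    · exact absurd rfl (ne_nil_of_len hS _ hf)
    · have hf' : f ∈ der a S := mem_der.2 hf
      have hJr : ∀ r, ∃ (b : Bool) (K : List Bool), J r = b :: K := by
        intro r
        have := hJ r
        rcases hh : J r with _ | ⟨b, K⟩
        · rw [hh] at this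
          simp at this
        · exact ⟨b, K, rfl⟩
      choose b K hJK using hJr
      obtain rfl : J = fun r => b r :: K r := funext hJK
      clear hJK
      have hJt : ∀ r, (K r).length = m := by
        intro r
        have := hJ r
        simpa using this
      have h1 := ih (der a S) f K (len_der hS a) hJt hf' (by
        intro j hj
        refine (hc (j + 1) (by omega)).trans (le_of_eq ?_)
        congr 1)
      have h2 : (0 : ℝ) < (der a S).card := by
        exact_mod_cast Finset.card_pos.2 ⟨f, hf'⟩
      have h3 : (0 : ℝ) < S.card := by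
        exact_mod_cast Finset.card_pos.2 ⟨_, hf⟩
      have hρ0 : (0 : ℝ) ≤ (der a S).card / S.card := by positivity
      have hρ1 : ((der a S).card / S.card : ℝ) ≤ 1 := by
        rw [div_le_one h3]
        exact_mod_cast card_der_le S a
      have h4 : ∀ r, yw S (a :: f) (b r :: K r) =
          (if b r = true then ((der a S).card / S.card : ℝ) else 1) *
            yw (der a S) f (K r) := by
        intro r
        cases b r
        · simp [yw]
        · simp [yw]
      rw [Finset.prod_congr rfl fun r _ => h4 r, Finset.prod_mul_distrib, Finset.prod_ite,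
        Finset.prod_const, Finset.prod_const_one, mul_one]
      have h5 : ((der a S).card / S.card : ℝ) ^
          (Finset.univ.filter (fun r => b r = true)).card ≤
          ((der a S).card / S.card : ℝ) ^ κ :=
        pow_le_pow_of_le_one hρ0 hρ1 (hc 0 (by omega))
      have h6 : (0 : ℝ) ≤ ∏ r, yw (der a S) f (K r) :=
        Finset.prod_nonneg fun r _ => yw_nonneg _ _ _
      calc _ ≤ ((der a S).card / S.card : ℝ) ^ κ * (1 / (der a S).card : ℝ) ^ κ :=
            mul_le_mul h5 h1 h6 (by positivity)
        _ = (1 / S.card : ℝ) ^ κ := by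
            rw [← mul_pow]
            congr 1
            field_simp

theorem count_core {n : ℕ} (m R κ : ℕ) (hR : 0 < R) (hκ : 0 < κ) (S : Finset (List (Fin n)))
    (hS : ∀ f ∈ S, f.length = m) (𝓛 : Finset (List (Fin n)))
    (h : ∀ f ∈ S, ∃ J : Fin R → List Bool, (∀ r, (J r).length = m ∧ sel (J r) f ∈ 𝓛) ∧
      ∀ j < m, κ ≤ (Finset.univ.filter (fun r => (J r).getD j false = true)).card) :
    S.card ^ κ ≤ (2 ^ m * 𝓛.card) ^ R := by
  classical
  rcases S.eq_empty_or_nonempty with rfl | hne
  · simp [hκ.ne']
  have hS0 : (0 : ℝ) < S.card := by exact_mod_cast Finset.card_pos.2 hne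
  -- the masks
  let 𝓜 : Finset (List Bool) := (Finset.univ : Finset (List.Vector Bool m)).image (fun v => v.1)
  have hM : ∀ J : List Bool, J.length = m → J ∈ 𝓜 := by
    intro J hJ
    exact Finset.mem_image.2 ⟨⟨J, hJ⟩, Finset.mem_univ _, rfl⟩
  have hMl : ∀ J ∈ 𝓜, J.length = m := by
    intro J hJ
    obtain ⟨v, -, rfl⟩ := Finset.mem_image.1 hJ
    exact v.2
  have hMc : 𝓜.card ≤ 2 ^ m := by
    refine Finset.card_image_le.trans ?_
    rw [Finset.card_univ, card_vector, Fintype.card_bool]
  -- for every word a good mask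
  have key : ∀ f ∈ S, ∃ J ∈ 𝓜, sel J f ∈ 𝓛 ∧ (S.card : ℝ) ^ κ ≤ (S.card * xw S f J) ^ R := by
    intro f hf
    obtain ⟨J, hJ, hc⟩ := h f hf
    have h1 := prod_yw m S f J hS (fun r => (hJ r).1) hf hc
    have h2 : ∏ r, (xw S f (J r) * yw S f (J r)) = (1 / S.card : ℝ) ^ R := by
      rw [Finset.prod_congr rfl fun r _ => xw_mul_yw m S f (J r) hS (hJ r).1 hf,
        Finset.prod_const, Finset.card_univ, Fintype.card_fin]
    rw [Finset.prod_mul_distrib] at h2
    have h3 : (S.card : ℝ) ^ κ ≤ ∏ r, (S.card * xw S f (J r)) := by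
      rw [Finset.prod_mul_distrib, Finset.prod_const, Finset.card_univ, Fintype.card_fin]
      have h4 : (0 : ℝ) ≤ ∏ r, xw S f (J r) := Finset.prod_nonneg fun r _ => xw_nonneg _ _ _
      have h5 : (1 / S.card : ℝ) ^ R ≤ (∏ r, xw S f (J r)) * (1 / S.card : ℝ) ^ κ := by
        rw [← h2]
        exact mul_le_mul_of_nonneg_left h1 h4
      have h6 : (S.card : ℝ) ^ κ * S.card ^ R * (1 / S.card : ℝ) ^ R ≤
          (S.card : ℝ) ^ κ * S.card ^ R * ((∏ r, xw S f (J r)) * (1 / S.card : ℝ) ^ κ) :=
        mul_le_mul_of_nonneg_left h5 (by positivity)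
      have h7 : (S.card : ℝ) ^ κ * S.card ^ R * (1 / S.card : ℝ) ^ R = (S.card : ℝ) ^ κ := by
        rw [mul_assoc, ← mul_pow, mul_one_div_cancel hS0.ne', one_pow, mul_one]
      have h8 : (S.card : ℝ) ^ κ * S.card ^ R * ((∏ r, xw S f (J r)) * (1 / S.card : ℝ) ^ κ) =
          (S.card : ℝ) ^ R * ∏ r, xw S f (J r) := by
        have : (S.card : ℝ) ^ κ * (1 / S.card : ℝ) ^ κ = 1 := by
          rw [← mul_pow, mul_one_div_cancel hS0.ne', one_pow]
        calc _ = ((S.card : ℝ) ^ κ * (1 / S.card : ℝ) ^ κ) *
              ((S.card : ℝ) ^ R * ∏ r, xw S f (J r)) := by ring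
          _ = _ := by rw [this, one_mul]
      rw [h7, h8] at h6
      exact h6
    obtain ⟨r₀, -, hr₀⟩ := Finset.exists_max_image (Finset.univ : Finset (Fin R))
      (fun r => S.card * xw S f (J r)) ⟨⟨0, hR⟩, Finset.mem_univ _⟩
    refine ⟨J r₀, hM _ (hJ r₀).1, (hJ r₀).2, h3.trans ?_⟩
    calc ∏ r, (S.card * xw S f (J r)) ≤ ∏ _r : Fin R, (S.card * xw S f (J r₀)) :=
          Finset.prod_le_prod (fun r _ => mul_nonneg hS0.le (xw_nonneg _ _ _))
            fun r hr => hr₀ r hr
      _ = _ := by rw [Finset.prod_const, Finset.card_univ, Fintype.card_fin]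
  choose! J hJM hJL hJR using key
  -- the sum
  have hsum : ∑ f ∈ S, xw S f (J f) ≤ 2 ^ m * 𝓛.card := by
    have h1 : ∑ f ∈ S, xw S f (J f) ≤ ∑ K ∈ 𝓜, ∑ l ∈ 𝓛, ∑ f ∈ S.filter (fun f => sel K f = l),
        xw S f K := by
      have h2 : ∀ f ∈ S, xw S f (J f) ≤ ∑ K ∈ 𝓜, ∑ l ∈ 𝓛,
          (if sel K f = l then xw S f K else 0) := by
        intro f hf
        have h3 : ∀ K ∈ 𝓜, 0 ≤ ∑ l ∈ 𝓛, (if sel K f = l then xw S f K else 0) := by
          intro K _
          refine Finset.sum_nonneg fun l _ => ?_
          split_ifs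
          · exact xw_nonneg _ _ _
          · exact le_rfl
        refine le_trans ?_ (Finset.single_le_sum h3 (hJM f hf))
        have h4 : ∀ l ∈ 𝓛, 0 ≤ (if sel (J f) f = l then xw S f (J f) else 0) := by
          intro l _
          split_ifs
          · exact xw_nonneg _ _ _
          · exact le_rfl
        refine le_trans ?_ (Finset.single_le_sum h4 (hJL f hf))
        rw [if_pos rfl]
      refine (Finset.sum_le_sum h2).trans (le_of_eq ?_)
      rw [Finset.sum_comm]
      refine Finset.sum_congr rfl fun K _ => ?_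
      rw [Finset.sum_comm]
      refine Finset.sum_congr rfl fun l _ => ?_
      rw [Finset.sum_filter]
    refine h1.trans ?_
    have h5 : ∀ K ∈ 𝓜, ∑ l ∈ 𝓛, ∑ f ∈ S.filter (fun f => sel K f = l), xw S f K ≤ 𝓛.card := by
      intro K hK
      refine (Finset.sum_le_sum fun l _ => xw_sum m S K l hS (hMl K hK)).trans ?_
      rw [Finset.sum_const, nsmul_eq_mul, mul_one]
    refine (Finset.sum_le_sum h5).trans ?_
    rw [Finset.sum_const, nsmul_eq_mul]
    exact mul_le_mul_of_nonneg_right (by exact_mod_cast hMc) (by positivity)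
  obtain ⟨f, hf, hfx⟩ := Finset.exists_le_of_sum_le hne (f := fun f => xw S f (J f))
    (g := fun _ => (2 ^ m * 𝓛.card : ℝ) / S.card) (by
      rw [Finset.sum_const, nsmul_eq_mul, mul_div_cancel₀ _ hS0.ne']
      exact hsum)
  have h1 := hJR f hf
  have h2 : (S.card : ℝ) * xw S f (J f) ≤ 2 ^ m * 𝓛.card := by
    have := mul_le_mul_of_nonneg_left hfx hS0.le
    rwa [mul_div_cancel₀ _ hS0.ne'] at this
  have h3 : (S.card : ℝ) ^ κ ≤ (2 ^ m * 𝓛.card : ℝ) ^ R :=
    h1.trans (pow_le_pow_left₀ (mul_nonneg hS0.le (xw_nonneg _ _ _)) h2 R)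
  exact_mod_cast h3

end Pool.Agent.Helper16.LS
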