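import Mathlib
import Pool.Agent.Helper68.PT.Ext2
import Pool.Agent.Helper81.VCP.Defs
import Pool.Agent.Helper33.TC.Core

/-!
# Project LS (MP_bca398_lc): prefix lists with a multiplicative-weights test

Algorithm. `H` is a list of vectors of length `n`, `i ≤ n`, `T` a vector of length `i` (a subset of
`V_i = {0, ..., i-1}`). A member `A` of `H` is inside `T` if `A ∩ V_i ⊆ T`. The test `tst` runs `8 q`
rounds; the elements of `T` have weights, at the beginning `W = 2 ^ (8 q)`; in each round the first
member `A` inside `T` with at least half of the total weight is chosen and the weights of its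
elements are halved. `T` is rejected if there is no such `A`.

* If `T` is rejected then the last weights show that no member inside `T` has half of the weight.
* If `T ≠ ∅` is accepted and `n < 2 ^ q` then `T` is covered at least `2 q` times by `8 q` members
  inside `T` (`Cov`).

Let `P` be the lexicographically minimal witness below the largest witness `g` and `Z` the complement
of `g`: if `P ∩ V_i` is rejected for the family `L` then all `Z \ V_j`, `j ≥ i`, are accepted for the
family `E` (with the order of the vertices reversed). So all witnesses are found from the lists of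
the accepted sets (all of whose initial segments are accepted). The number of sets with `Cov` is at
most `N ^ k (ℓ + 1) (2 ^ ℓ N) ^ 4` if `4 a (3/4) ^ k ≤ ℓ`, where `a` is the maximal size and `N` the
number of the members.
-/

set_option autoImplicit false

namespace Pool.Agent.Helper16.LS

open Pool.Agent.Helper36 Pool.Agent.Helper81.VCP

/-! ### The algorithm -/

/-- `min (2 ^ q) B` (if `1 ≤ B`). -/
def cap (B q : ℕ) : ℕ := PT.recN 1 (fun _ x => min (2 * x) B) q

/-- `A` is inside `T`: all elements `j < i` of `A` are in `T`. -/
def ins (i : ℕ) (T A : List Bool) : Bool := (List.range i).all fun j => !(mem A j) || mem T j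

/-- The weight of the part of `A` below `i`. -/
def wt (i : ℕ) (w : List ℕ) (A : List Bool) : ℕ :=
  ((List.range i).map fun j => bif mem A j then w.getD j 0 else 0).sum

/-- A member of `H` inside `T` with at least half of the weight. -/
def fnd (H : List (List Bool)) (i : ℕ) (T : List Bool) (w : List ℕ) : Option (List Bool) :=
  H.find? fun A => ins i T A && decide (w.sum ≤ 2 * wt i w A)

/-- The weights of the elements of `A` are halved. -/
def upd (i : ℕ) (w : List ℕ) (A : List Bool) : List ℕ :=
  (List.range i).map fun j => bif mem A j then w.getD j 0 / 2 else w.getD j 0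

/-- One round. -/
def rnd (H : List (List Bool)) (i : ℕ) (T : List Bool) (w : List ℕ) : List ℕ :=
  match fnd H i T w with
  | some A => upd i w A
  | none => w

/-- The initial weights. -/
def wini (W i : ℕ) (T : List Bool) : List ℕ :=
  (List.range i).map fun j => bif mem T j then W else 0

/-- The weights after `R` rounds. -/
def run (R W : ℕ) (H : List (List Bool)) (i : ℕ) (T : List Bool) : List ℕ :=
  PT.recN (wini W i T) (fun _ w => rnd H i T w) R

/-- The test with `R` rounds and initial weights `W`. -/
def tst (R W : ℕ) (H : List (List Bool)) (i : ℕ) (T : List Bool) : Bool :=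
  !((List.range i).any fun j => mem T j) || (fnd H i T (run R W H i T)).isSome

/-- `cap (4 n + 4) q ^ 8`. -/
def ini (n q : ℕ) : ℕ := cap (4 * n + 4) q ^ 8

/-- The candidates for witnesses. -/
def allM (P n : ℕ) (E L : List (List Bool)) (q : ℕ) : List (List Bool) :=
  ((List.range n).map fun _ => true) ::
    (List.range n).flatMap fun i => [false, true].flatMap fun e =>
      (cand (tst (8 * q) (ini n q) L) P i).flatMap fun T =>
        (cand (tst (8 * q) (ini n q) (E.map List.reverse)) P (n - 1 - i)).map fun Z =>
          T ++ e :: (Z.map not).reverse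

/-- The search for a new minimal transversal. -/
def nextM (P n : ℕ) (E L : List (List Bool)) (q : ℕ) : Option (List Bool) :=
  ((allM P n E L q).find? (good n E L)).map (minim n E)

/-- The search is complete. -/
def feasM (P n : ℕ) (E L : List (List Bool)) (q : ℕ) : Bool :=
  (decide (cap (4 * n + 4) q < 4 * n + 4) && decide (n < cap (4 * n + 4) q)) &&
    (!(trunc (tst (8 * q) (ini n q) L) P n) &&
      !(trunc (tst (8 * q) (ini n q) (E.map List.reverse)) P n))

/-! ### Sets -/

/-- The set with the order of the vertices reversed. -/
def rv {n : ℕ} (A : Finset (Fin n)) : Finset (Fin n) := A.image Fin.rev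

/-- The weight `w` shows that no member of `H` inside `T` (with respect to the region `V`) has half
of the weight of `T`. -/
def Rej {n : ℕ} (H : Finset (Finset (Fin n))) (V T : Finset (Fin n)) : Prop :=
  ∃ w : Fin n → ℕ, 0 < ∑ t ∈ T, w t ∧
    ∀ A ∈ H, A ∩ V ⊆ T → 2 * ∑ t ∈ A ∩ T, w t < ∑ t ∈ T, w t

/-- `T` is covered `2 q` times by `8 q` members of `H` inside `T`. -/
def Cov {n : ℕ} (q : ℕ) (H : Finset (Finset (Fin n))) (V T : Finset (Fin n)) : Prop :=
  ∃ f : Fin (8 * q) → Finset (Fin n), (∀ r, f r ∈ H ∧ f r ∩ V ⊆ T) ∧
    ∀ t ∈ T, 2 * q ≤ (Finset.univ.filter (fun r => t ∈ f r)).card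

end Pool.Agent.Helper16.LS
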