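import Mathlib
import Pool.Agent.Helper16.LS.Defs
import Pool.Agent.Helper16.LS.Core

/-!
# LS-02: the number of covered sets of a given size (uses LS-01 as a black box)

PROOF. For `T ∈ 𝒯` let `inc T` be the increasing list of its elements (length `m`), `S` = the set of these
lists (`card S = card 𝒯`), `𝓛` = the set of the lists `inc (A ∩ V)`, `A ∈ H` (`card 𝓛 ≤ card H`). For `Cov`
data `f r` take the masks `J r = (inc T).map (fun t => t ∈ f r)`; then
`sel (J r) (inc T) = (inc T).filter (· ∈ f r) = inc (f r ∩ V)` (`f r ∩ V ⊆ T ⊆ V`), and the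
position `j` is in `J r` iff the `j`-th element of `T` is in `f r`. `count_core` with `R = 8 q`, `κ = 2 q` gives
`|𝒯| ^ (2 q) ≤ (2 ^ m |H|) ^ (8 q) = ((2 ^ m |H|) ^ 4) ^ (2 q)`, and `q > 0`.
-/

set_option autoImplicit false

namespace Pool.Agent.Helper16.LS

/-- The increasing list of the elements of `T`. -/
private def inc {n : ℕ} (T : Finset (Fin n)) : List (Fin n) :=
  (List.finRange n).filter fun j => decide (j ∈ T)

private theorem mem_inc {n : ℕ} (T : Finset (Fin n)) (j : Fin n) : j ∈ inc T ↔ j ∈ T := by
  unfold inc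
  simp

private theorem inc_inj {n : ℕ} {T T' : Finset (Fin n)} (h : inc T = inc T') : T = T' := by
  ext j
  rw [← mem_inc, h, mem_inc]

private theorem length_inc {n : ℕ} (T : Finset (Fin n)) : (inc T).length = T.card := by
  have h1 : (inc T).Nodup := (List.nodup_finRange n).filter _
  rw [← List.toFinset_card_of_nodup h1]
  congr 1
  ext j
  rw [List.mem_toFinset, mem_inc]

private theorem sel_map {α : Type} (p : α → Bool) (l : List α) : sel (l.map p) l = l.filter p := by
  induction l with
  | nil => rfl
  | cons a l ih =>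
    rw [List.map_cons, List.filter_cons]
    cases h : p a
    · simpa [sel] using ih
    · simpa [sel] using ih

theorem card_cov_exact {n : ℕ} (q m : ℕ) (hq : 0 < q) (H : Finset (Finset (Fin n)))
    (V : Finset (Fin n)) (𝒯 : Finset (Finset (Fin n)))
    (h : ∀ T ∈ 𝒯, T ⊆ V ∧ T.card = m ∧ Cov q H V T) : 𝒯.card ≤ (2 ^ m * H.card) ^ 4 := by
  classical
  have hcore := count_core m (8 * q) (2 * q) (by omega) (by omega) (𝒯.image inc)
    (fun f hf => by
      obtain ⟨T, hT, rfl⟩ := Finset.mem_image.1 hf
      rw [length_inc]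
      exact (h T hT).2.1) (H.image fun A => inc (A ∩ V)) (fun f hf => by
      obtain ⟨T, hT, rfl⟩ := Finset.mem_image.1 hf
      obtain ⟨hTV, hTm, f, hf1, hf2⟩ := h T hT
      refine ⟨fun r => (inc T).map fun t => decide (t ∈ f r), fun r => ⟨?_, ?_⟩, fun j hj => ?_⟩
      · rw [List.length_map, length_inc, hTm]
      · rw [sel_map]
        refine Finset.mem_image.2 ⟨f r, (hf1 r).1, ?_⟩
        unfold inc
        rw [List.filter_filter]
        apply List.filter_congr
        intro t _
        rw [← Bool.decide_and, decide_eq_decide, Finset.mem_inter]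
        constructor
        · rintro ⟨h1, h2⟩
          exact ⟨h1, (hf1 r).2 (Finset.mem_inter.2 ⟨h1, h2⟩)⟩
        · rintro ⟨h1, h2⟩
          exact ⟨h1, hTV h2⟩
      · have hj' : j < (inc T).length := by rw [length_inc, hTm]; exact hj
        refine (hf2 ((inc T)[j]) ((mem_inc T _).1 (List.getElem_mem hj'))).trans ?_
        apply Finset.card_le_card
        intro r hr
        rw [Finset.mem_filter] at hr ⊢
        refine ⟨Finset.mem_univ _, ?_⟩
        rw [List.getD_eq_getElem _ _ (by rw [List.length_map]; exact hj'), List.getElem_map]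
        exact decide_eq_true hr.2)
  rw [Finset.card_image_of_injective _ (fun T T' hTT => inc_inj hTT)] at hcore
  have h1 : 𝒯.card ^ (2 * q) ≤ ((2 ^ m * H.card) ^ 4) ^ (2 * q) := by
    calc 𝒯.card ^ (2 * q) ≤ (2 ^ m * (H.image fun A => inc (A ∩ V)).card) ^ (8 * q) := hcore
      _ ≤ (2 ^ m * H.card) ^ (8 * q) :=
          Nat.pow_le_pow_left (Nat.mul_le_mul_left _ Finset.card_image_le) _
      _ = ((2 ^ m * H.card) ^ 4) ^ (2 * q) := by
          rw [← pow_mul]
          congr 1
          ring
  exact (Nat.pow_le_pow_iff_left (by omega)).1 h1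

end Pool.Agent.Helper16.LS
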