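import Mathlib
import Pool.Agent.Helper16.LS.Defs
import Pool.Agent.Helper16.LS.Count

/-!
# LS-03: the number of covered sets (uses LS-02 as a black box)

PROOF. Let `Cov q H V T`, `T ⊆ V`, with the members `f r` (`r < 8 q`). For every `Q ⊆ T` double counting gives
`∑_r |f r ∩ Q| ≥ 2 q |Q|`, so (`q > 0`) some `r` has `4 |f r ∩ Q| ≥ |Q|`, i.e. `4 |Q \ f r| ≤ 3 |Q|`. With `Q = T`:
`|T| ≤ 4 a`. Iterating `k` times (`greedy`, induction on `k`): there is `A : Fin k → Finset (Fin n)`, `A j ∈ H`,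
`A j ∩ V ⊆ T` and `4 ^ k |T \ ⋃ A j| ≤ 3 ^ k (4 a)`, so `|T \ ⋃ A j| ≤ ℓ`.
Choose such an `A = A(T) ∈ Fintype.piFinset (fun _ : Fin k => H)` (a set with `|H| ^ k` elements) for every
`T ∈ 𝒯`; it suffices (`Finset.card_le_mul_card_image` or `Finset.card_le_mul_card_image_of_maps_to`) to show
that every fibre has at most `(ℓ + 1) (2 ^ ℓ |H|) ^ 4` elements. Let `U = (⋃ A j) ∩ V ⊆ T` for all `T` in the
fibre; `T ↦ T \ U` is injective on the fibre, `|T \ U| ≤ ℓ`, and `T \ U` satisfies `Cov q H' V` with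
`H' = {B \ U : B ∈ H}`, `|H'| ≤ |H|` (take `f r \ U`). Split according to `m = |T \ U| ≤ ℓ` and use `card_cov_exact`
(`2 ^ m ≤ 2 ^ ℓ`).
-/

set_option autoImplicit false

namespace Pool.Agent.Helper16.LS

theorem ck_step {n : ℕ} {q : ℕ} (hq : 0 < q) {H : Finset (Finset (Fin n))}
    {V T : Finset (Fin n)} (h : Cov q H V T) {Q : Finset (Fin n)} (hQ : Q ⊆ T) :
    ∃ A ∈ H, A ∩ V ⊆ T ∧ Q.card ≤ 4 * (A ∩ Q).card := by
  obtain ⟨f, hf, hc⟩ := h
  by_contra hcon
  push Not at hcon
  have h1 : ∀ r : Fin (8 * q), 4 * (f r ∩ Q).card < Q.card := fun r => hcon _ (hf r).1 (hf r).2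
  have h2 : ∑ r : Fin (8 * q), 4 * (f r ∩ Q).card < ∑ _r : Fin (8 * q), Q.card := by
    have hne : (Finset.univ : Finset (Fin (8 * q))).Nonempty :=
      ⟨⟨0, by omega⟩, Finset.mem_univ _⟩
    exact Finset.sum_lt_sum_of_nonempty hne fun r _ => h1 r
  rw [Finset.sum_const, Finset.card_univ, Fintype.card_fin, ← Finset.mul_sum, smul_eq_mul] at h2
  have h3 : ∑ r : Fin (8 * q), (f r ∩ Q).card =
      ∑ t ∈ Q, (Finset.univ.filter (fun r => t ∈ f r)).card := by
    have h4 : ∀ r : Fin (8 * q), (f r ∩ Q).card = ∑ t ∈ Q, if t ∈ f r then 1 else 0 := by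
      intro r
      rw [← Finset.card_filter, Finset.inter_comm, ← Finset.filter_mem_eq_inter]
    have h5 : ∀ t, (Finset.univ.filter (fun r => t ∈ f r)).card =
        ∑ r : Fin (8 * q), if t ∈ f r then 1 else 0 := by
      intro t
      rw [← Finset.card_filter]
    simp only [h4, h5]
    exact Finset.sum_comm
  have h6 : Q.card * (2 * q) ≤ ∑ t ∈ Q, (Finset.univ.filter (fun r => t ∈ f r)).card := by
    have h7 := Finset.card_nsmul_le_sum Q
      (fun t => (Finset.univ.filter (fun r => t ∈ f r)).card) (2 * q) (fun t ht => hc t (hQ ht))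
    rwa [smul_eq_mul] at h7
  rw [← h3] at h6
  nlinarith

theorem ck_greedy {n : ℕ} {q : ℕ} (hq : 0 < q) {H : Finset (Finset (Fin n))}
    {V T : Finset (Fin n)} (h : Cov q H V T) (k : ℕ) :
    ∃ A : Fin k → Finset (Fin n), (∀ j, A j ∈ H ∧ A j ∩ V ⊆ T) ∧
      4 ^ k * (T \ Finset.univ.sup A).card ≤ 3 ^ k * T.card := by
  induction k with
  | zero =>
    refine ⟨fun j => j.elim0, fun j => j.elim0, ?_⟩
    simp
  | succ k ih =>
    obtain ⟨A, hA, hA'⟩ := ih
    obtain ⟨B, hB, hB', hB2⟩ := ck_step hq h (Q := T \ Finset.univ.sup A) Finset.sdiff_subset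
    refine ⟨Fin.cons B A, fun j => ?_, ?_⟩
    · refine Fin.cases ?_ (fun j => ?_) j
      · exact ⟨hB, hB'⟩
      · exact hA j
    · have h1 : T \ Finset.univ.sup (Fin.cons B A : Fin (k + 1) → Finset (Fin n)) =
          (T \ Finset.univ.sup A) \ B := by
        have h2 : Finset.univ.sup (Fin.cons B A : Fin (k + 1) → Finset (Fin n)) =
            B ⊔ Finset.univ.sup A := by
          apply le_antisymm
          · refine Finset.sup_le fun j _ => ?_
            refine Fin.cases ?_ (fun j => ?_) j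
            · exact le_sup_left
            · exact le_sup_of_le_right (Finset.le_sup (f := A) (Finset.mem_univ j))
          · refine sup_le ?_ (Finset.sup_le fun j _ => ?_)
            · exact Finset.le_sup (f := (Fin.cons B A : Fin (k + 1) → Finset (Fin n)))
                (Finset.mem_univ 0)
            · exact Finset.le_sup (f := (Fin.cons B A : Fin (k + 1) → Finset (Fin n)))
                (Finset.mem_univ j.succ)
        rw [h2]
        ext x
        simp only [Finset.mem_sdiff, Finset.sup_eq_union, Finset.mem_union]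
        tauto
      rw [h1]
      have h3 := Finset.card_sdiff_add_card_inter (T \ Finset.univ.sup A) B
      rw [Finset.inter_comm] at h3
      have h4 : 4 * ((T \ Finset.univ.sup A) \ B).card ≤ 3 * (T \ Finset.univ.sup A).card := by
        omega
      calc 4 ^ (k + 1) * ((T \ Finset.univ.sup A) \ B).card
          = 4 ^ k * (4 * ((T \ Finset.univ.sup A) \ B).card) := by ring
        _ ≤ 4 ^ k * (3 * (T \ Finset.univ.sup A).card) := Nat.mul_le_mul_left _ h4
        _ = 3 * (4 ^ k * (T \ Finset.univ.sup A).card) := by ring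
        _ ≤ 3 * (3 ^ k * T.card) := Nat.mul_le_mul_left _ hA'
        _ = 3 ^ (k + 1) * T.card := by ring

theorem ck_cov_sdiff {n : ℕ} {q : ℕ} {H : Finset (Finset (Fin n))} {V T : Finset (Fin n)}
    (h : Cov q H V T) (U : Finset (Fin n)) : Cov q (H.image (fun A => A \ U)) V (T \ U) := by
  obtain ⟨f, hf, hc⟩ := h
  refine ⟨fun r => f r \ U, fun r => ⟨Finset.mem_image_of_mem _ (hf r).1, ?_⟩, fun t ht => ?_⟩
  · intro x hx
    rw [Finset.mem_inter, Finset.mem_sdiff] at hx
    rw [Finset.mem_sdiff]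
    exact ⟨(hf r).2 (Finset.mem_inter.2 ⟨hx.1.1, hx.2⟩), hx.1.2⟩
  · rw [Finset.mem_sdiff] at ht
    refine (hc t ht.1).trans (Finset.card_le_card fun r hr => ?_)
    rw [Finset.mem_filter] at hr ⊢
    exact ⟨hr.1, Finset.mem_sdiff.2 ⟨hr.2, ht.2⟩⟩

theorem card_cov {n : ℕ} (q a k ℓ : ℕ) (hq : 0 < q) (H : Finset (Finset (Fin n)))
    (V : Finset (Fin n)) (ha : ∀ A ∈ H, A.card ≤ a) (hk : 3 ^ k * (4 * a) ≤ 4 ^ k * ℓ)
    (𝒯 : Finset (Finset (Fin n))) (h : ∀ T ∈ 𝒯, T ⊆ V ∧ Cov q H V T) :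
    𝒯.card ≤ H.card ^ k * ((ℓ + 1) * (2 ^ ℓ * H.card) ^ 4) := by
  classical
  have hex : ∀ T ∈ 𝒯, ∃ A : Fin k → Finset (Fin n), (∀ j, A j ∈ H ∧ A j ∩ V ⊆ T) ∧
      (T \ Finset.univ.sup A).card ≤ ℓ := by
    intro T hT
    obtain ⟨hTV, hcov⟩ := h T hT
    obtain ⟨A, hA, hA'⟩ := ck_greedy hq hcov k
    obtain ⟨B, hB, _, hB2⟩ := ck_step hq hcov (Q := T) (Finset.Subset.refl T)
    refine ⟨A, hA, ?_⟩
    have h1 : T.card ≤ 4 * a :=
      hB2.trans (Nat.mul_le_mul_left 4 ((Finset.card_le_card Finset.inter_subset_left).trans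
        (ha B hB)))
    have h2 : 4 ^ k * (T \ Finset.univ.sup A).card ≤ 4 ^ k * ℓ :=
      hA'.trans ((Nat.mul_le_mul_left _ h1).trans hk)
    exact Nat.le_of_mul_le_mul_left h2 (by positivity)
  choose! F hF hF' using hex
  have hmaps : ∀ T ∈ 𝒯, F T ∈ Fintype.piFinset (fun _ : Fin k => H) := by
    intro T hT
    rw [Fintype.mem_piFinset]
    exact fun j => (hF T hT j).1
  have hfib : ∀ A ∈ Fintype.piFinset (fun _ : Fin k => H),
      (𝒯.filter (fun T => F T = A)).card ≤ (ℓ + 1) * (2 ^ ℓ * H.card) ^ 4 := by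
    intro A _
    have hU : ∀ T ∈ 𝒯.filter (fun T => F T = A), (Finset.univ.sup A) ∩ V ⊆ T := by
      intro T hT x hx
      obtain ⟨hT1, hT2⟩ := Finset.mem_filter.1 hT
      obtain ⟨hx1, hx2⟩ := Finset.mem_inter.1 hx
      rw [Finset.mem_sup] at hx1
      obtain ⟨j, _, hj⟩ := hx1
      have h1 := (hF T hT1 j).2
      rw [hT2] at h1
      exact h1 (Finset.mem_inter.2 ⟨hj, hx2⟩)
    obtain ⟨U, hUdef⟩ : ∃ U, U = (Finset.univ.sup A) ∩ V := ⟨_, rfl⟩
    rw [← hUdef] at hU
    have hinj : Set.InjOn (fun T : Finset (Fin n) => T \ U)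
        ((𝒯.filter (fun T => F T = A) : Finset (Finset (Fin n))) : Set (Finset (Fin n))) := by
      intro T hT T' hT' he
      have h1 : T \ U ∪ U = T := Finset.sdiff_union_of_subset (hU T hT)
      have h2 : T' \ U ∪ U = T' := Finset.sdiff_union_of_subset (hU T' hT')
      have he' : T \ U = T' \ U := he
      rw [← h1, ← h2, he']
    rw [← Finset.card_image_of_injOn hinj]
    have hH' : (H.image (fun A => A \ U)).card ≤ H.card := Finset.card_image_le
    have hall : ∀ X ∈ (𝒯.filter (fun T => F T = A)).image (fun T => T \ U),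
        X ⊆ V ∧ X.card ≤ ℓ ∧ Cov q (H.image (fun A => A \ U)) V X := by
      intro X hX
      obtain ⟨T, hT, rfl⟩ := Finset.mem_image.1 hX
      obtain ⟨hT1, hT2⟩ := Finset.mem_filter.1 hT
      refine ⟨Finset.sdiff_subset.trans (h T hT1).1, ?_, ck_cov_sdiff (h T hT1).2 U⟩
      have h1 := hF' T hT1
      rw [hT2] at h1
      refine (Finset.card_le_card ?_).trans h1
      intro x hx
      rw [Finset.mem_sdiff] at hx ⊢
      refine ⟨hx.1, fun hx2 => hx.2 ?_⟩
      rw [hUdef]
      exact Finset.mem_inter.2 ⟨hx2, (h T hT1).1 hx.1⟩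
    have h2 := Finset.card_le_mul_card_image_of_maps_to
      (s := (𝒯.filter (fun T => F T = A)).image (fun T => T \ U))
      (f := Finset.card) (t := Finset.range (ℓ + 1))
      (fun X hX => Finset.mem_range.2 (Nat.lt_succ_of_le (hall X hX).2.1))
      ((2 ^ ℓ * H.card) ^ 4) (by
        intro m hm
        have h3 := card_cov_exact q m hq (H.image (fun A => A \ U)) V
          (((𝒯.filter (fun T => F T = A)).image (fun T => T \ U)).filter
            (fun X => X.card = m)) (fun X hX => by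
            obtain ⟨hX1, hX2⟩ := Finset.mem_filter.1 hX
            exact ⟨(hall X hX1).1, hX2, (hall X hX1).2.2⟩)
        refine h3.trans (Nat.pow_le_pow_left (Nat.mul_le_mul ?_ hH') 4)
        exact Nat.pow_le_pow_right (by norm_num) (Nat.lt_succ_iff.1 (Finset.mem_range.1 hm)))
    rw [Finset.card_range, mul_comm] at h2
    exact h2
  have h1 := Finset.card_le_mul_card_image_of_maps_to hmaps _ hfib
  rw [Fintype.card_piFinset_const, mul_comm] at h1
  exact h1

end Pool.Agent.Helper16.LS
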