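import Mathlib
import Pool.Agent.Helper16.LS.Defs
import Pool.Agent.Helper16.LS.CountK

/-!
# LS-04: arithmetic (uses LS-03 as a black box)

PROOF. `ℓ = Nat.log 2 b ≥ 1`, `x = Nat.log 2 (a / ℓ)`, `k = 3 (x + 3)`. `a / ℓ < 2 ^ (x + 1)` (`Nat.lt_pow_succ_log_self`),
so `a < ℓ 2 ^ (x + 1)`; `3 ^ k = 27 ^ (x + 3)`, `4 ^ k = 64 ^ (x + 3)`, `27 * 2 ≤ 64`, so
`3 ^ k (4 a) ≤ 27 ^ (x + 3) 2 ^ (x + 3) ℓ ≤ 64 ^ (x + 3) ℓ`. `card_cov`: the number is at most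
`b ^ k * ((ℓ + 1) * (2 ^ ℓ * b) ^ 4) ≤ b ^ k * (b * (b * b) ^ 4) = b ^ (k + 9)` (`2 ^ ℓ ≤ b`, `ℓ + 1 ≤ 2 ^ ℓ`,
`Nat.pow_log_le_self`), and `1 + b ^ (k + 9) ≤ b ^ (k + 10)`.
-/

set_option autoImplicit false

namespace Pool.Agent.Helper16.LS

theorem card_cov_pow {n : ℕ} (q a b : ℕ) (hq : 0 < q) (hb : 2 ≤ b) (H : Finset (Finset (Fin n)))
    (V : Finset (Fin n)) (ha : ∀ A ∈ H, A.card ≤ a) (hH : H.card ≤ b)
    (𝒯 : Finset (Finset (Fin n))) (h : ∀ T ∈ 𝒯, T ⊆ V ∧ (T = ∅ ∨ Cov q H V T)) :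
    𝒯.card ≤ b ^ (3 * Nat.log 2 (a / Nat.log 2 b) + 19) := by
  obtain ⟨ℓ, hℓ⟩ : ∃ ℓ, ℓ = Nat.log 2 b := ⟨_, rfl⟩
  rw [← hℓ]
  obtain ⟨x, hx⟩ : ∃ x, x = Nat.log 2 (a / ℓ) := ⟨_, rfl⟩
  rw [← hx]
  have hℓ1 : 1 ≤ ℓ := by
    rw [hℓ]
    exact Nat.log_pos (by norm_num) hb
  have h2ℓ : 2 ^ ℓ ≤ b := by
    rw [hℓ]
    exact Nat.pow_log_le_self 2 (by omega)
  have hℓ2 : ℓ + 1 ≤ 2 ^ ℓ := Nat.lt_two_pow_self
  have hax : a < ℓ * 2 ^ (x + 1) := by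
    have h1 : a / ℓ < 2 ^ (x + 1) := by
      rw [hx]
      exact Nat.lt_pow_succ_log_self (by norm_num) _
    rw [Nat.div_lt_iff_lt_mul (by omega)] at h1
    rwa [mul_comm] at h1
  have hk : 3 ^ (3 * (x + 3)) * (4 * a) ≤ 4 ^ (3 * (x + 3)) * ℓ := by
    calc 3 ^ (3 * (x + 3)) * (4 * a)
        ≤ 3 ^ (3 * (x + 3)) * (4 * (ℓ * 2 ^ (x + 1))) :=
          Nat.mul_le_mul_left _ (Nat.mul_le_mul_left _ hax.le)
      _ = (27 ^ (x + 3) * 2 ^ (x + 3)) * ℓ := by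
          rw [pow_mul]
          ring
      _ = 54 ^ (x + 3) * ℓ := by
          rw [← mul_pow]
          norm_num
      _ ≤ 64 ^ (x + 3) * ℓ := Nat.mul_le_mul_right _ (Nat.pow_le_pow_left (by norm_num) _)
      _ = 4 ^ (3 * (x + 3)) * ℓ := by
          rw [pow_mul]
          norm_num
  classical
  have hsub : 𝒯 ⊆ insert ∅ (𝒯.filter fun T => Cov q H V T) := by
    intro T hT
    rcases (h T hT).2 with h1 | h1
    · rw [h1]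
      exact Finset.mem_insert_self _ _
    · exact Finset.mem_insert_of_mem (Finset.mem_filter.2 ⟨hT, h1⟩)
  have hcard := card_cov q a (3 * (x + 3)) ℓ hq H V ha hk (𝒯.filter fun T => Cov q H V T)
    (fun T hT => ⟨(h T (Finset.mem_filter.1 hT).1).1, (Finset.mem_filter.1 hT).2⟩)
  have h9 : H.card ^ (3 * (x + 3)) * ((ℓ + 1) * (2 ^ ℓ * H.card) ^ 4) ≤
      b ^ (3 * (x + 3) + 9) := by
    calc H.card ^ (3 * (x + 3)) * ((ℓ + 1) * (2 ^ ℓ * H.card) ^ 4)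
        ≤ b ^ (3 * (x + 3)) * (b * (b * b) ^ 4) :=
          Nat.mul_le_mul (Nat.pow_le_pow_left hH _)
            (Nat.mul_le_mul (hℓ2.trans h2ℓ) (Nat.pow_le_pow_left (Nat.mul_le_mul h2ℓ hH) 4))
      _ = b ^ (3 * (x + 3) + 9) := by ring
  calc 𝒯.card ≤ (insert ∅ (𝒯.filter fun T => Cov q H V T)).card := Finset.card_le_card hsub
    _ ≤ (𝒯.filter fun T => Cov q H V T).card + 1 := Finset.card_insert_le _ _
    _ ≤ b ^ (3 * (x + 3) + 9) + 1 := Nat.add_le_add_right (hcard.trans h9) 1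
    _ ≤ b ^ (3 * (x + 3) + 9) + b ^ (3 * (x + 3) + 9) :=
        Nat.add_le_add_left (Nat.one_le_pow _ _ (by omega)) _
    _ = 2 * b ^ (3 * (x + 3) + 9) := by ring
    _ ≤ b * b ^ (3 * (x + 3) + 9) := Nat.mul_le_mul_right _ hb
    _ = b ^ (3 * x + 19) := by ring

end Pool.Agent.Helper16.LS
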