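import Mathlib
import Pool.Agent.Helper16.LS.Defs

/-!
# LS-05: the multiplicative-weights test (vector level)

`W = 2 ^ R`. Let `w r = PT.recN (wini W i T) .. r`. INVARIANT (induction on `r ≤ R`): there are numbers
`c r j ≤ r` (`j < i`) such that `(w r).getD j 0 = 2 ^ (R - c r j)` if `mem T j`, and `= 0` if not, and
`(w r).length = i`. If the find of a round fails then `w` does not change any more and all later
finds fail too (`recN` of a fixed point).

`tst_rej`: `tst = false` means that some `j < i` has `mem T j` and that `fnd H i T (run ..) = none`. Take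
`w j = (run ..).getD j 0` (it is `0` outside `T`, and positive on `T`): `List.find?_eq_none`.

`tst_cov`: if `tst = true` and some `j < i` is in `T`, then all the finds in the rounds `0, ..., 8 q - 1`
succeed (otherwise the last one fails). Let `f r` be the member found in the round `r`, `c j` = the number of
the `r` with `mem (f r) j`: `w_(8q) j = 2 ^ (8 q - c j)` on `T`. `sum (w (r + 1)) * 4 ≤ 3 * sum (w r)`
(halving a part which is at least one half; the numbers `2 ^ (8 q - c)` with `c ≤ r < 8 q` are even).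
So `4 ^ (8 q) * sum (w (8 q)) ≤ 3 ^ (8 q) * 2 ^ (8 q) * i`; if `c j < 2 q` then `2 ^ (8 q) ≤ w_(8q) j * 2 ^ (2 q - 1)`,
and `i < 2 ^ q` gives `4 ^ (8 q) * 2 ^ (8 q) * 2 ≤ 3 ^ (8 q) * 2 ^ (8 q) * 2 ^ q * 4 ^ q`, i.e.
`65536 ^ q * 2 ≤ 52488 ^ q`, a contradiction.
-/

set_option autoImplicit false

namespace Pool.Agent.Helper16.LS

open Pool.Agent.Helper36 Pool.Agent.Helper81.VCP

theorem getD_map_range (g : ℕ → ℕ) (i j : ℕ) :
    ((List.range i).map g).getD j 0 = if j < i then g j else 0 := by
  by_cases hj : j < i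
  · rw [if_pos hj, List.getD_eq_getElem?_getD]
    simp [hj]
  · rw [if_neg hj, List.getD_eq_getElem?_getD, List.getElem?_eq_none (by simpa using hj)]
    rfl

theorem sum_getD : ∀ (w : List ℕ) (i : ℕ), w.length = i →
    w.sum = ∑ j ∈ Finset.range i, w.getD j 0 := by
  intro w
  induction w with
  | nil =>
    intro i hi
    simp at hi
    subst hi
    simp
  | cons a w ih =>
    intro i hi
    simp at hi
    subst hi
    rw [Finset.sum_range_succ', List.sum_cons, ih _ rfl]
    simp [add_comm]

theorem sum_map_range (g : ℕ → ℕ) (i : ℕ) :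
    ((List.range i).map g).sum = ∑ j ∈ Finset.range i, g j := by
  rw [sum_getD _ i (by simp)]
  refine Finset.sum_congr rfl fun j hj => ?_
  rw [getD_map_range, if_pos (Finset.mem_range.1 hj)]

theorem wt_eq (i : ℕ) (w : List ℕ) (A : List Bool) :
    wt i w A = ∑ j ∈ (Finset.range i).filter (fun j => mem A j = true), w.getD j 0 := by
  rw [wt, sum_map_range, Finset.sum_filter]
  refine Finset.sum_congr rfl fun j _ => ?_
  cases mem A j <;> simp

theorem upd_getD (i : ℕ) (w : List ℕ) (A : List Bool) (j : ℕ) (hj : j < i) :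
    (upd i w A).getD j 0 = if mem A j = true then w.getD j 0 / 2 else w.getD j 0 := by
  rw [upd, getD_map_range, if_pos hj]
  cases mem A j <;> simp

theorem wini_getD (W i : ℕ) (T : List Bool) (j : ℕ) :
    (wini W i T).getD j 0 = if j < i then (if mem T j = true then W else 0) else 0 := by
  rw [wini, getD_map_range]
  cases mem T j <;> simp

theorem run_length (W : ℕ) (H : List (List Bool)) (i : ℕ) (T : List Bool) (r : ℕ) :
    (run r W H i T).length = i := by
  induction r with
  | zero => simp [run, PT.recN, wini]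
  | succ r ih =>
    have h : run (r + 1) W H i T = rnd H i T (run r W H i T) := rfl
    rw [h, rnd]
    split
    · simp [upd]
    · exact ih

theorem run_zero_out (W : ℕ) (H : List (List Bool)) (i : ℕ) (T : List Bool) (r j : ℕ)
    (hT : mem T j = false) : (run r W H i T).getD j 0 = 0 := by
  induction r with
  | zero =>
    have h : run 0 W H i T = wini W i T := rfl
    rw [h, wini_getD]
    simp [hT]
  | succ r ih =>
    have h : run (r + 1) W H i T = rnd H i T (run r W H i T) := rfl
    rw [h, rnd]
    split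
    · by_cases hj : j < i
      · rw [upd_getD _ _ _ _ hj, ih]
        simp
      · rw [upd, getD_map_range, if_neg hj]
    · exact ih

theorem run_pos (R : ℕ) (H : List (List Bool)) (i : ℕ) (T : List Bool) (r j : ℕ)
    (hr : r ≤ R) (hj : j < i) (hT : mem T j = true) :
    ∃ c, c ≤ r ∧ (run r (2 ^ R) H i T).getD j 0 = 2 ^ (R - c) := by
  induction r with
  | zero =>
    have h : run 0 (2 ^ R) H i T = wini (2 ^ R) i T := rfl
    refine ⟨0, le_rfl, ?_⟩
    rw [h, wini_getD]
    simp [hT, hj]
  | succ r ih =>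
    obtain ⟨c, hc, he⟩ := ih (by omega)
    have h : run (r + 1) (2 ^ R) H i T = rnd H i T (run r (2 ^ R) H i T) := rfl
    rw [h, rnd]
    split
    · rename_i A _
      rw [upd_getD _ _ _ _ hj, he]
      by_cases hA : mem A j = true
      · refine ⟨c + 1, by omega, ?_⟩
        rw [if_pos hA]
        have h2 : R - c = R - (c + 1) + 1 := by omega
        rw [h2, pow_succ, Nat.mul_div_cancel _ (by norm_num)]
      · refine ⟨c, by omega, ?_⟩
        rw [if_neg hA]
    · exact ⟨c, by omega, he⟩

theorem run_fix (W : ℕ) (H : List (List Bool)) (i : ℕ) (T : List Bool) (r : ℕ)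
    (h : fnd H i T (run r W H i T) = none) (s : ℕ) (hs : r ≤ s) :
    run s W H i T = run r W H i T := by
  induction s with
  | zero =>
    have : r = 0 := by omega
    rw [this]
  | succ s ih =>
    rcases Nat.lt_or_ge s r with h1 | h1
    · have : r = s + 1 := by omega
      rw [this]
    · have h2 : run (s + 1) W H i T = rnd H i T (run s W H i T) := rfl
      rw [h2, ih h1, rnd, h]

theorem ins_iff (i : ℕ) (T A : List Bool) :
    ins i T A = true ↔ ∀ j < i, mem A j = true → mem T j = true := by
  unfold ins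
  rw [List.all_eq_true]
  constructor
  · intro h j hj hA
    have := h j (List.mem_range.2 hj)
    simpa [hA] using this
  · intro h j hj
    have hj' := List.mem_range.1 hj
    cases hA : mem A j
    · simp
    · simp [h j hj' hA]

theorem tst_rej (R : ℕ) (H : List (List Bool)) (i : ℕ) (T : List Bool)
    (h : tst R (2 ^ R) H i T = false) :
    ∃ w : ℕ → ℕ, (∀ j, mem T j = false → w j = 0) ∧ 0 < ∑ j ∈ Finset.range i, w j ∧
      ∀ A ∈ H, (∀ j < i, mem A j = true → mem T j = true) →
        2 * ∑ j ∈ (Finset.range i).filter (fun j => mem A j = true), w j <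
          ∑ j ∈ Finset.range i, w j := by
  unfold tst at h
  rw [Bool.or_eq_false_iff] at h
  obtain ⟨h1, h2⟩ := h
  have h3 : fnd H i T (run R (2 ^ R) H i T) = none := by
    simpa using h2
  have h4 : ∃ j, j < i ∧ mem T j = true := by
    simpa using h1
  refine ⟨fun j => (run R (2 ^ R) H i T).getD j 0, fun j hj => run_zero_out _ _ _ _ _ _ hj, ?_, ?_⟩
  · obtain ⟨j, hj, hT⟩ := h4
    obtain ⟨c, _, hc⟩ := run_pos R H i T R j le_rfl hj hT
    refine Finset.sum_pos' (fun _ _ => Nat.zero_le _) ⟨j, Finset.mem_range.2 hj, ?_⟩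
    rw [hc]
    positivity
  · intro A hA hin
    unfold fnd at h3
    rw [List.find?_eq_none] at h3
    have h5 := h3 A hA
    have h6 : ins i T A = true := (ins_iff i T A).2 hin
    rw [h6, Bool.true_and, decide_eq_true_eq, not_le] at h5
    rw [wt_eq, sum_getD _ i (run_length _ _ _ _ _)] at h5
    exact h5

theorem tst_cov (q : ℕ) (H : List (List Bool)) (i : ℕ) (hi : i < 2 ^ q) (T : List Bool)
    (h : tst (8 * q) (2 ^ (8 * q)) H i T = true) :
    (∀ j < i, mem T j = false) ∨ ∃ f : Fin (8 * q) → List Bool,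
      (∀ r, f r ∈ H ∧ ∀ j < i, mem (f r) j = true → mem T j = true) ∧
      ∀ j < i, mem T j = true →
        2 * q ≤ (Finset.univ.filter (fun r => mem (f r) j = true)).card := by
  by_cases h0 : ∀ j < i, mem T j = false
  · exact Or.inl h0
  right
  have h4 : ∃ j, j < i ∧ mem T j = true := by
    push Not at h0
    obtain ⟨j, hj, h5⟩ := h0
    exact ⟨j, hj, by simpa using h5⟩
  have h5 : fnd H i T (run (8 * q) (2 ^ (8 * q)) H i T) ≠ none := by
    unfold tst at h
    rw [Bool.or_eq_true] at h
    rcases h with h | h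
    · exfalso
      have : ((List.range i).any fun j => mem T j) = true := by
        rw [List.any_eq_true]
        obtain ⟨j, hj, h6⟩ := h4
        exact ⟨j, List.mem_range.2 hj, h6⟩
      rw [this] at h
      simp at h
    · intro h6
      rw [h6] at h
      simp at h
  have h6 : ∀ r, r < 8 * q → ∃ A, fnd H i T (run r (2 ^ (8 * q)) H i T) = some A := by
    intro r hr
    cases h7 : fnd H i T (run r (2 ^ (8 * q)) H i T) with
    | none =>
      exfalso
      apply h5
      rw [run_fix _ _ _ _ r h7 (8 * q) hr.le]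
      exact h7
    | some A => exact ⟨A, rfl⟩
  choose! f hf using h6
  have hmem : ∀ r, r < 8 * q → f r ∈ H ∧ ins i T (f r) = true ∧
      (run r (2 ^ (8 * q)) H i T).sum ≤ 2 * wt i (run r (2 ^ (8 * q)) H i T) (f r) := by
    intro r hr
    have h7 := hf r hr
    unfold fnd at h7
    have h8 := List.find?_some h7
    have h9 := List.mem_of_find?_eq_some h7
    rw [Bool.and_eq_true, decide_eq_true_eq] at h8
    exact ⟨h9, h8.1, h8.2⟩
  have hstep : ∀ r, r < 8 * q → run (r + 1) (2 ^ (8 * q)) H i T =
      upd i (run r (2 ^ (8 * q)) H i T) (f r) := by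
    intro r hr
    have h2 : run (r + 1) (2 ^ (8 * q)) H i T = rnd H i T (run r (2 ^ (8 * q)) H i T) := rfl
    rw [h2, rnd, hf r hr]
  have hcard : ∀ j r, ((Finset.range (r + 1)).filter (fun r => mem (f r) j = true)).card =
      ((Finset.range r).filter (fun r => mem (f r) j = true)).card +
        if mem (f r) j = true then 1 else 0 := by
    intro j r
    rw [Finset.card_filter, Finset.card_filter, Finset.sum_range_succ]
  have hcle : ∀ j r, ((Finset.range r).filter (fun r => mem (f r) j = true)).card ≤ r := by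
    intro j r
    exact (Finset.card_filter_le _ _).trans (by simp)
  have hw : ∀ j, j < i → mem T j = true → ∀ r, r ≤ 8 * q →
      (run r (2 ^ (8 * q)) H i T).getD j 0 =
        2 ^ (8 * q - ((Finset.range r).filter (fun r => mem (f r) j = true)).card) := by
    intro j hj hT r
    induction r with
    | zero =>
      intro _
      have h7 : run 0 (2 ^ (8 * q)) H i T = wini (2 ^ (8 * q)) i T := rfl
      rw [h7, wini_getD]
      simp [hT, hj]
    | succ r ih =>
      intro hr
      rw [hstep r (by omega), upd_getD _ _ _ _ hj, ih (by omega), hcard]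
      have h8 := hcle j r
      by_cases hA : mem (f r) j = true
      · rw [if_pos hA, if_pos hA]
        have h9 : 8 * q - ((Finset.range r).filter (fun r => mem (f r) j = true)).card =
            8 * q - (((Finset.range r).filter (fun r => mem (f r) j = true)).card + 1) + 1 := by
          omega
        rw [h9, pow_succ, Nat.mul_div_cancel _ (by norm_num)]
      · rw [if_neg hA, if_neg hA, add_zero]
  have hsum : ∀ r, r ≤ 8 * q →
      4 ^ r * ∑ j ∈ Finset.range i, (run r (2 ^ (8 * q)) H i T).getD j 0 ≤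
        3 ^ r * (2 ^ (8 * q) * i) := by
    intro r
    induction r with
    | zero =>
      intro _
      rw [pow_zero, pow_zero, one_mul, one_mul]
      calc ∑ j ∈ Finset.range i, (run 0 (2 ^ (8 * q)) H i T).getD j 0
          ≤ ∑ _j ∈ Finset.range i, 2 ^ (8 * q) := by
            refine Finset.sum_le_sum fun j _ => ?_
            have h7 : run 0 (2 ^ (8 * q)) H i T = wini (2 ^ (8 * q)) i T := rfl
            rw [h7, wini_getD]
            split
            · split
              · exact le_rfl
              · exact Nat.zero_le _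
            · exact Nat.zero_le _
        _ = 2 ^ (8 * q) * i := by simp [mul_comm]
    | succ r ih =>
      intro hr
      have h7 := ih (by omega)
      have h8 := (hmem r (by omega)).2.2
      rw [wt_eq, sum_getD _ i (run_length _ _ _ _ _)] at h8
      have h9 : 4 * ∑ j ∈ Finset.range i, (run (r + 1) (2 ^ (8 * q)) H i T).getD j 0 ≤
          3 * ∑ j ∈ Finset.range i, (run r (2 ^ (8 * q)) H i T).getD j 0 := by
        rw [hstep r (by omega)]
        generalize run r (2 ^ (8 * q)) H i T = w at h8 ⊢
        have h10 : ∑ j ∈ Finset.range i, (upd i w (f r)).getD j 0 =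
            ∑ j ∈ Finset.range i, (if mem (f r) j = true then w.getD j 0 / 2 else w.getD j 0) :=
          Finset.sum_congr rfl fun j hj => upd_getD _ _ _ _ (Finset.mem_range.1 hj)
        rw [h10, Finset.sum_ite]
        have h11 := Finset.sum_filter_add_sum_filter_not (Finset.range i)
          (fun j => mem (f r) j = true) (fun j => w.getD j 0)
        have h12 : 2 * ∑ j ∈ (Finset.range i).filter (fun j => mem (f r) j = true), w.getD j 0 / 2 ≤
            ∑ j ∈ (Finset.range i).filter (fun j => mem (f r) j = true), w.getD j 0 := by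
          rw [Finset.mul_sum]
          refine Finset.sum_le_sum fun j _ => ?_
          omega
        omega
      calc 4 ^ (r + 1) * ∑ j ∈ Finset.range i, (run (r + 1) (2 ^ (8 * q)) H i T).getD j 0
          = 4 ^ r * (4 * ∑ j ∈ Finset.range i, (run (r + 1) (2 ^ (8 * q)) H i T).getD j 0) := by
            rw [pow_succ, mul_assoc]
        _ ≤ 4 ^ r * (3 * ∑ j ∈ Finset.range i, (run r (2 ^ (8 * q)) H i T).getD j 0) :=
            Nat.mul_le_mul_left _ h9
        _ = 3 * (4 ^ r * ∑ j ∈ Finset.range i, (run r (2 ^ (8 * q)) H i T).getD j 0) := by ring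
        _ ≤ 3 * (3 ^ r * (2 ^ (8 * q) * i)) := Nat.mul_le_mul_left _ h7
        _ = 3 ^ (r + 1) * (2 ^ (8 * q) * i) := by rw [pow_succ]; ring
  refine ⟨fun r => f r, fun r => ⟨(hmem r r.2).1, (ins_iff i T (f r)).1 (hmem r r.2).2.1⟩, ?_⟩
  intro j hj hT
  have hc1 : (Finset.univ.filter (fun r : Fin (8 * q) => mem (f r) j = true)).card =
      ((Finset.range (8 * q)).filter (fun r => mem (f r) j = true)).card := by
    rw [Finset.card_filter, Finset.card_filter, Finset.sum_range]
  rw [hc1]
  by_contra hlt
  rw [not_le] at hlt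
  have e1 := hw j hj hT (8 * q) le_rfl
  have e2 := hsum (8 * q) le_rfl
  have e3 : (run (8 * q) (2 ^ (8 * q)) H i T).getD j 0 ≤
      ∑ j ∈ Finset.range i, (run (8 * q) (2 ^ (8 * q)) H i T).getD j 0 :=
    Finset.single_le_sum (f := fun j => (run (8 * q) (2 ^ (8 * q)) H i T).getD j 0)
      (fun _ _ => Nat.zero_le _) (Finset.mem_range.2 hj)
  have e4 : 2 ^ (6 * q + 1) ≤ (run (8 * q) (2 ^ (8 * q)) H i T).getD j 0 := by
    rw [e1]
    exact Nat.pow_le_pow_right (by norm_num) (by omega)
  have e5 : 4 ^ (8 * q) * 2 ^ (6 * q + 1) ≤ 3 ^ (8 * q) * (2 ^ (8 * q) * i) :=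
    (Nat.mul_le_mul_left _ (e4.trans e3)).trans e2
  have e6 : 3 ^ (8 * q) * (2 ^ (8 * q) * i) ≤ 3 ^ (8 * q) * (2 ^ (8 * q) * 2 ^ q) :=
    Nat.mul_le_mul_left _ (Nat.mul_le_mul_left _ hi.le)
  have e7 : 4 ^ (8 * q) * 2 ^ (6 * q + 1) = 2 ^ (9 * q) * (8192 ^ q * 2) := by
    have a1 : (4 : ℕ) ^ (8 * q) = 2 ^ (16 * q) := by
      rw [show (4 : ℕ) = 2 ^ 2 by norm_num, ← pow_mul]
      congr 1
      ring
    have a2 : (8192 : ℕ) ^ q = 2 ^ (13 * q) := by
      rw [show (8192 : ℕ) = 2 ^ 13 by norm_num, ← pow_mul]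
    rw [a1, a2, pow_succ, ← mul_assoc, ← mul_assoc, ← pow_add, ← pow_add]
    congr 2
    ring
  have e8 : 3 ^ (8 * q) * (2 ^ (8 * q) * 2 ^ q) = 2 ^ (9 * q) * 6561 ^ q := by
    have a1 : (3 : ℕ) ^ (8 * q) = 6561 ^ q := by
      rw [pow_mul]
      norm_num
    rw [a1, ← pow_add, show 8 * q + q = 9 * q by ring, mul_comm]
  have e9 : 2 ^ (9 * q) * (8192 ^ q * 2) ≤ 2 ^ (9 * q) * 6561 ^ q := by
    rw [← e7, ← e8]
    exact e5.trans e6
  have e10 : 8192 ^ q * 2 ≤ 6561 ^ q := Nat.le_of_mul_le_mul_left e9 (by positivity)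
  have e11 : 6561 ^ q ≤ 8192 ^ q := Nat.pow_le_pow_left (by norm_num) q
  have e12 : 0 < 8192 ^ q := by positivity
  omega

end Pool.Agent.Helper16.LS
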