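import Mathlib
import Pool.Agent.Helper81.VCP.K3
import Pool.Agent.Helper16.LS.Defs
import Pool.Agent.Helper16.LS.Run

/-!
# LS-06: dictionary between vectors and sets (uses LS-05 and VCP.K3)

`mem_vec_fin`, `mem_pre`, `VCP.mem_VI`. A function `w : ℕ → ℕ` restricts to `fun t : Fin n => w t`; for `T ⊆ VI n i`,
`i ≤ n`: `∑ t ∈ T, w t = ∑ j ∈ range i, w j` since `w j = 0` for `j` outside `T`, and the same for `A ∩ T`
if `A ∩ V_i ⊆ T` (map `Fin n → ℕ`, `Finset.sum_map` / `Finset.sum_bij`).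
`map_reverse`: `(vec A).reverse = vec (rv A)` (compare lengths and entries: `List.getElem_reverse`, `Fin.rev`).
`cap_eq`: induction on `q`.
-/

set_option autoImplicit false

namespace Pool.Agent.Helper16.LS

open Pool.Agent.Helper36 Pool.Agent.Helper81.VCP

variable {n : ℕ}

private theorem di_mem_pre {i : ℕ} {T : Finset (Fin n)}
    (hT : T ⊆ Pool.Agent.Helper33.TC.VI n i) (t : Fin n) :
    mem (pre i T) t = true ↔ t ∈ T := by
  rw [mem_pre]
  constructor
  · rintro ⟨_, _, h⟩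
    exact h
  · intro h
    exact ⟨Pool.Agent.Helper33.TC.mem_VI.1 (hT h), t.2, h⟩

private theorem di_sum {i : ℕ} {T : Finset (Fin n)}
    (hT : T ⊆ Pool.Agent.Helper33.TC.VI n i) (w : ℕ → ℕ)
    (hw : ∀ j, mem (pre i T) j = false → w j = 0) (S : Finset ℕ) (B : Finset (Fin n))
    (hB : B ⊆ T) (hS : ∀ t ∈ B, (t : ℕ) ∈ S) (hS2 : ∀ t ∈ T, (t : ℕ) ∈ S → t ∈ B) :
    ∑ t ∈ B, w t = ∑ j ∈ S, w j := by
  have h1 : ∑ t ∈ B, w t = ∑ j ∈ B.map Fin.valEmbedding, w j := by
    rw [Finset.sum_map]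
    rfl
  rw [h1]
  refine Finset.sum_subset ?_ ?_
  · intro j hj
    obtain ⟨t, ht, rfl⟩ := Finset.mem_map.1 hj
    exact hS t ht
  · intro j hj hj2
    apply hw
    by_contra hcon
    rw [Bool.not_eq_false, mem_pre] at hcon
    obtain ⟨_, h3, h4⟩ := hcon
    exact hj2 (Finset.mem_map.2 ⟨⟨j, h3⟩, hS2 _ h4 hj, rfl⟩)

theorem rej_of_tst (R i : ℕ) (hi : i ≤ n) (E : List (Finset (Fin n))) (T : Finset (Fin n))
    (hT : T ⊆ Pool.Agent.Helper33.TC.VI n i) (h : tst R (2 ^ R) (E.map vec) i (pre i T) = false) :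
    Rej E.toFinset (Pool.Agent.Helper33.TC.VI n i) T := by
  obtain ⟨w, hw, hpos, hA⟩ := tst_rej R (E.map vec) i (pre i T) h
  have hsum : ∑ t ∈ T, w t = ∑ j ∈ Finset.range i, w j :=
    di_sum hT w hw (Finset.range i) T (Finset.Subset.refl T)
      (fun t ht => Finset.mem_range.2 (Pool.Agent.Helper33.TC.mem_VI.1 (hT ht)))
      (fun t ht _ => ht)
  refine ⟨fun t => w t, by rw [hsum]; exact hpos, ?_⟩
  intro A hAE hAV
  have h1 := hA (vec A) (List.mem_map.2 ⟨A, List.mem_toFinset.1 hAE, rfl⟩) (fun j hj hm => by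
    rw [mem_vec] at hm
    obtain ⟨h2, h3⟩ := hm
    rw [mem_pre]
    exact ⟨hj, h2, hAV (Finset.mem_inter.2 ⟨h3, Pool.Agent.Helper33.TC.mem_VI.2 hj⟩)⟩)
  have h2 : ∑ t ∈ A ∩ T, w t =
      ∑ j ∈ (Finset.range i).filter (fun j => mem (vec A) j = true), w j := by
    refine di_sum hT w hw _ (A ∩ T) Finset.inter_subset_right (fun t ht => ?_)
      (fun t ht ht2 => ?_)
    · obtain ⟨h3, h4⟩ := Finset.mem_inter.1 ht
      exact Finset.mem_filter.2 ⟨Finset.mem_range.2 (Pool.Agent.Helper33.TC.mem_VI.1 (hT h4)),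
        (mem_vec_fin A t).2 h3⟩
    · exact Finset.mem_inter.2 ⟨(mem_vec_fin A t).1 (Finset.mem_filter.1 ht2).2, ht⟩
  rw [hsum, h2]
  exact h1

theorem cov_of_tst (q i : ℕ) (hn : n < 2 ^ q) (hi : i ≤ n) (E : List (Finset (Fin n)))
    (T : Finset (Fin n)) (hT : T ⊆ Pool.Agent.Helper33.TC.VI n i)
    (h : tst (8 * q) (2 ^ (8 * q)) (E.map vec) i (pre i T) = true) :
    T = ∅ ∨ Cov q E.toFinset (Pool.Agent.Helper33.TC.VI n i) T := by
  rcases tst_cov q (E.map vec) i (lt_of_le_of_lt hi hn) (pre i T) h with h1 | ⟨f, hf, hc⟩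
  · left
    rw [Finset.eq_empty_iff_forall_notMem]
    intro t ht
    have h2 := h1 t (Pool.Agent.Helper33.TC.mem_VI.1 (hT ht))
    rw [(di_mem_pre hT t).2 ht] at h2
    exact absurd h2 (by decide)
  · right
    have hex : ∀ r, ∃ A ∈ E, vec A = f r := fun r => List.mem_map.1 (hf r).1
    choose g hg hg' using hex
    refine ⟨g, fun r => ⟨List.mem_toFinset.2 (hg r), ?_⟩, fun t ht => ?_⟩
    · intro x hx
      obtain ⟨h2, h3⟩ := Finset.mem_inter.1 hx
      refine (di_mem_pre hT x).1 ((hf r).2 x (Pool.Agent.Helper33.TC.mem_VI.1 h3) ?_)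
      rw [← hg' r]
      exact (mem_vec_fin _ x).2 h2
    · have h2 := hc t (Pool.Agent.Helper33.TC.mem_VI.1 (hT ht)) ((di_mem_pre hT t).2 ht)
      refine h2.trans (Finset.card_le_card fun r hr => ?_)
      rw [Finset.mem_filter] at hr ⊢
      refine ⟨hr.1, ?_⟩
      have h3 := hr.2
      rw [← hg' r] at h3
      exact (mem_vec_fin _ t).1 h3

theorem reverse_vec (A : Finset (Fin n)) : (vec A).reverse = vec (rv A) := by
  apply ext_mem_K3
  · rw [List.length_reverse, length_vec, length_vec]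
  · intro j hj
    rw [List.length_reverse, length_vec] at hj
    rw [mem_vec]
    have h1 : mem (vec A).reverse j = mem (vec A) (n - 1 - j) := by
      unfold mem
      rw [List.getD_eq_getElem _ _ (by rw [List.length_reverse, length_vec]; exact hj),
        List.getD_eq_getElem _ _ (by rw [length_vec]; omega), List.getElem_reverse]
      congr 1
      rw [length_vec]
    rw [h1, mem_vec]
    have h2 : Fin.rev (⟨j, hj⟩ : Fin n) = ⟨n - 1 - j, by omega⟩ := by
      apply Fin.ext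
      rw [Fin.val_rev]
      simp only
      omega
    constructor
    · rintro ⟨h3, h4⟩
      refine ⟨hj, ?_⟩
      unfold rv
      rw [Finset.mem_image]
      refine ⟨_, h4, ?_⟩
      rw [← h2, Fin.rev_rev]
    · rintro ⟨h3, h4⟩
      unfold rv at h4
      rw [Finset.mem_image] at h4
      obtain ⟨a, ha, ha2⟩ := h4
      refine ⟨by omega, ?_⟩
      rw [← h2, ← ha2, Fin.rev_rev]
      exact ha

theorem map_reverse (E : List (Finset (Fin n))) :
    (E.map vec).map List.reverse = (E.map rv).map vec := by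
  rw [List.map_map, List.map_map]
  refine List.map_congr_left fun A _ => ?_
  exact reverse_vec A

theorem cap_eq (B q : ℕ) (hB : 1 ≤ B) : cap B q = min (2 ^ q) B := by
  induction q with
  | zero =>
    show 1 = min (2 ^ 0) B
    rw [pow_zero, min_eq_left hB]
  | succ q ih =>
    have h1 : cap B (q + 1) = min (2 * cap B q) B := rfl
    rw [h1, ih, pow_succ]
    omega

end Pool.Agent.Helper16.LS
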