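import Mathlib
import Pool.Agent.Helper81.VCP.K3
import Pool.Agent.Helper81.VCP.K5
import Pool.Agent.Helper33.TCM.Round
import Pool.Agent.Helper16.LS.Defs
import Pool.Agent.Helper16.LS.Dict
import Pool.Agent.Helper16.LS.CountB

/-!
# LS-10: the search is feasible if the budget is large (uses LS-04, LS-06, VCP.K5)

PROOF. `b = n * (E.length + (TrF E).card) + n + 2`, `q = Nat.log 2 n + 1` (so `n < 2 ^ q ≤ 2 n + 2`, `1 ≤ q`, `q ≤ n + 1 < b ≤ P`);
`cap (4 n + 4) q = 2 ^ q` (`cap_eq`), `ini n q = 2 ^ (8 q)`. `not_trunc` for `E' = L` and for `E' = E.map rv` (`map_reverse`): if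
`T ⊆ VI n i` and the test accepts `pre i T` then `T = ∅ ∨ Cov q E'.toFinset (VI n i) T` (`cov_of_tst`), so there are at most
`b ^ (3 x + 19) ≤ b ^ (v + 2) ≤ P` (`card_cov_pow`; `(rv A).card = A.card`, `E'.toFinset.card ≤ b`: if `n = 0` it is at most `1`, else
`n ≥ 1` and it is at most `E'.length ≤ b`; `L.length ≤ (TrF E).card` is `TCM.length_le_TrF`).
-/

set_option autoImplicit false

namespace Pool.Agent.Helper16.LS

open Pool.Agent.Helper36 Pool.Agent.Helper81.VCP

variable {n : ℕ}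

private theorem aux_trunc (P a v q b : ℕ) (E' : List (Finset (Fin n))) (hq : 0 < q)
    (hn : n < 2 ^ q) (hb : 2 ≤ b) (ha : ∀ A ∈ E', A.card ≤ a) (hb' : E'.toFinset.card ≤ b)
    (hv : 3 * Nat.log 2 (a / Nat.log 2 b) + 17 ≤ v) (hP : b ^ (v + 2) ≤ P) :
    trunc (tst (8 * q) (2 ^ (8 * q)) (E'.map vec)) P n = false := by
  refine not_trunc _ P fun i hi 𝒯 h𝒯 => ?_
  refine (card_cov_pow q a b hq hb E'.toFinset (Pool.Agent.Helper33.TC.VI n i) ?_ hb' 𝒯
    fun T hT => ?_).trans ?_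
  · intro A hA
    exact ha A (List.mem_toFinset.1 hA)
  · obtain ⟨hsub, hloc⟩ := h𝒯 T hT
    exact ⟨hsub, cov_of_tst q i hn hi E' T hsub hloc⟩
  · exact le_trans (Nat.pow_le_pow_right (by omega) (by omega)) hP

private theorem card_le_aux (E' : List (Finset (Fin n))) (c b : ℕ) (h : E'.length ≤ c)
    (hb : n * c + n + 2 ≤ b) : E'.toFinset.card ≤ b := by
  rcases Nat.eq_zero_or_pos n with h0 | h0
  · subst h0
    have h1 : E'.toFinset.card ≤ Fintype.card (Finset (Fin 0)) := Finset.card_le_univ _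
    have h2 : Fintype.card (Finset (Fin 0)) = 1 := by
      rw [Fintype.card_finset, Fintype.card_fin, pow_zero]
    omega
  · have h1 : E'.toFinset.card ≤ E'.length := List.toFinset_card_le E'
    have h2 : 1 * c ≤ n * c := Nat.mul_le_mul_right c h0
    omega

theorem feasM_of (P a v : ℕ) (E L : List (Finset (Fin n))) (hnd : L.Nodup)
    (hL : ∀ B ∈ L, MinTr E B) (ha : ∀ A ∈ E, A.card ≤ a) (ha' : ∀ B ∈ L, B.card ≤ a)
    (hv : 3 * Nat.log 2 (a / Nat.log 2 (n * (E.length + (TrF E).card) + n + 2)) + 17 ≤ v)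
    (hP : (n * (E.length + (TrF E).card) + n + 2) ^ (v + 2) ≤ P) :
    ∃ q < P, feasM P n (E.map vec) (L.map vec) q = true := by
  have hLc := Pool.Agent.Helper33.TCM.length_le_TrF E L hnd hL
  obtain ⟨b, hbdef⟩ : ∃ b, b = n * (E.length + (TrF E).card) + n + 2 := ⟨_, rfl⟩
  rw [← hbdef] at hv hP
  have hb2 : 2 ≤ b := by omega
  have hnb : n + 2 ≤ b := by
    have : 0 ≤ n * (E.length + (TrF E).card) := Nat.zero_le _
    omega
  have hbP : b ≤ P := by
    calc b = b ^ 1 := (pow_one b).symm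
      _ ≤ b ^ (v + 2) := Nat.pow_le_pow_right (by omega) (by omega)
      _ ≤ P := hP
  have hlog : Nat.log 2 n ≤ n := Nat.log_le_self 2 n
  have hn : n < 2 ^ (Nat.log 2 n + 1) := Nat.lt_pow_succ_log_self (by norm_num) n
  have hn2 : 2 ^ (Nat.log 2 n + 1) ≤ 2 * n + 2 := by
    rcases Nat.eq_zero_or_pos n with h0 | h0
    · subst h0
      simp
    · have h1 : 2 ^ Nat.log 2 n ≤ n := Nat.pow_log_le_self 2 (by omega)
      rw [pow_succ]
      omega
  have hcap : cap (4 * n + 4) (Nat.log 2 n + 1) = 2 ^ (Nat.log 2 n + 1) := by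
    rw [cap_eq _ _ (by omega)]
    exact min_eq_left (by omega)
  have hini : ini n (Nat.log 2 n + 1) = 2 ^ (8 * (Nat.log 2 n + 1)) := by
    unfold ini
    rw [hcap, ← pow_mul, Nat.mul_comm]
  refine ⟨Nat.log 2 n + 1, by omega, ?_⟩
  have ht1 := aux_trunc P a v (Nat.log 2 n + 1) b L (Nat.succ_pos _) hn hb2 ha'
    (card_le_aux L (E.length + (TrF E).card) b (by omega) (by omega)) hv hP
  have ht2 := aux_trunc P a v (Nat.log 2 n + 1) b (E.map rv) (Nat.succ_pos _) hn hb2
    (by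
      intro A hA
      obtain ⟨B, hB, rfl⟩ := List.mem_map.1 hA
      exact (Finset.card_image_le).trans (ha B hB))
    (card_le_aux (E.map rv) (E.length + (TrF E).card) b (by rw [List.length_map]; omega)
      (by omega)) hv hP
  unfold feasM
  rw [hini, hcap, map_reverse, ht1, ht2]
  have h1 : 2 ^ (Nat.log 2 n + 1) < 4 * n + 4 := by omega
  simp only [h1, hn, decide_true, Bool.not_false, Bool.and_true]

end Pool.Agent.Helper16.LS
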