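import Mathlib
import Pool.Agent.Helper68.PT.Ext2
import Pool.Agent.Helper81.VCP.Defs
import Pool.Agent.Helper81.VCP.PT1a
import Pool.Agent.Helper81.VCP.PT1b
import Pool.Agent.Helper81.VCP.PT1c
import Pool.Agent.Helper81.VCP.PT2a
import Pool.Agent.Helper81.VCP.PT2b
import Pool.Agent.Helper81.VCP.PT2c
import Pool.Agent.Helper81.VCP.PT3
import Pool.Agent.Helper16.LS.Defs

/-!
# LS-11: polynomial time

Everything by `fun_prop` except: `cap` (`PolyTime.recN`, bound `B + 1`), `run` (`PolyTime.recN`; bound: the list has length `i`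
and entries `≤ W`, `rnd` does not increase entries), and `cand`, `trunc` for a test `tst` with parameters (see VCP.PT1c, where
`cand`, `trunc` are treated: if the general lemma there is for an arbitrary `loc` use it).
-/

set_option autoImplicit false

namespace Pool.Agent.Helper16.LS

open Pool.Agent.Helper36 Pool.Agent.Helper36.PT Pool.Agent.Helper81.VCP

section

variable {α : Type} [Enc α]

@[fun_prop]
private theorem cap_pt {B q : α → ℕ} (hB : PolyTime B) (hq : PolyTime q) :
    PolyTime (fun a => cap (B a) (q a)) := by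
  have hh : PolyTime (fun p : (α × ℕ) × ℕ => min (2 * p.2) (B p.1.1)) := by fun_prop
  refine PolyTime.recN (n := q) (g := fun _ : α => 1) (h := fun a _ x => min (2 * x) (B a)) hq
    (PolyTime.const 1) hh ⟨fun a => B a + 1, (bdd_nat hB).add (Bdd.const 1), ?_⟩
  intro a i _
  rw [esz_nat]
  cases i with
  | zero => simp [recN]
  | succ i =>
    rw [recN]
    exact (min_le_right _ _).trans (Nat.le_succ _)

@[fun_prop]
private theorem ins_pt {i : α → ℕ} {T A : α → List Bool} (hi : PolyTime i) (hT : PolyTime T)
    (hA : PolyTime A) : PolyTime (fun a => ins (i a) (T a) (A a)) := by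
  unfold ins
  fun_prop

@[fun_prop]
private theorem wt_pt {i : α → ℕ} {w : α → List ℕ} {A : α → List Bool} (hi : PolyTime i)
    (hw : PolyTime w) (hA : PolyTime A) : PolyTime (fun a => wt (i a) (w a) (A a)) := by
  unfold wt
  fun_prop

@[fun_prop]
private theorem fnd_pt {H : α → List (List Bool)} {i : α → ℕ} {T : α → List Bool}
    {w : α → List ℕ} (hH : PolyTime H) (hi : PolyTime i) (hT : PolyTime T) (hw : PolyTime w) :
    PolyTime (fun a => fnd (H a) (i a) (T a) (w a)) := by
  unfold fnd
  fun_prop

@[fun_prop]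
private theorem upd_pt {i : α → ℕ} {w : α → List ℕ} {A : α → List Bool} (hi : PolyTime i)
    (hw : PolyTime w) (hA : PolyTime A) : PolyTime (fun a => upd (i a) (w a) (A a)) := by
  unfold upd
  fun_prop

@[fun_prop]
private theorem rnd_pt {H : α → List (List Bool)} {i : α → ℕ} {T : α → List Bool}
    {w : α → List ℕ} (hH : PolyTime H) (hi : PolyTime i) (hT : PolyTime T) (hw : PolyTime w) :
    PolyTime (fun a => rnd (H a) (i a) (T a) (w a)) := by
  have h := PolyTime.optCases (o := fun a => fnd (H a) (i a) (T a) (w a)) (f := w)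
    (g := fun a A => upd (i a) (w a) A) (by fun_prop) hw (by fun_prop)
  refine h.congr fun a => ?_
  unfold rnd
  generalize fnd (H a) (i a) (T a) (w a) = o
  cases o with
  | none => rfl
  | some v => rfl

@[fun_prop]
private theorem wini_pt {W i : α → ℕ} {T : α → List Bool} (hW : PolyTime W) (hi : PolyTime i)
    (hT : PolyTime T) : PolyTime (fun a => wini (W a) (i a) (T a)) := by
  unfold wini
  fun_prop

private theorem rnd_bd {W : ℕ} (H : List (List Bool)) (i : ℕ) (T : List Bool) (w : List ℕ)
    (h1 : w.length = i) (h2 : ∀ x ∈ w, x ≤ W) :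
    (rnd H i T w).length = i ∧ ∀ x ∈ rnd H i T w, x ≤ W := by
  unfold rnd
  cases fnd H i T w with
  | none => exact ⟨h1, h2⟩
  | some A =>
    have h3 : ∀ j, w.getD j 0 ≤ W := by
      intro j
      by_cases hj : j < w.length
      · rw [List.getD_eq_getElem _ _ hj]
        exact h2 _ (List.getElem_mem hj)
      · rw [List.getD_eq_default _ _ (not_lt.mp hj)]
        exact Nat.zero_le _
    refine ⟨by simp [upd], ?_⟩
    intro x hx
    simp only [upd, List.mem_map, List.mem_range] at hx
    obtain ⟨j, _, rfl⟩ := hx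
    cases mem A j
    · exact h3 j
    · exact (Nat.div_le_self _ _).trans (h3 j)

private theorem run_bd (R W : ℕ) (H : List (List Bool)) (i : ℕ) (T : List Bool) :
    (run R W H i T).length = i ∧ ∀ x ∈ run R W H i T, x ≤ W := by
  unfold run
  induction R with
  | zero =>
    refine ⟨by simp [recN, wini], ?_⟩
    intro x hx
    simp only [recN, wini, List.mem_map, List.mem_range] at hx
    obtain ⟨j, _, rfl⟩ := hx
    cases mem T j
    · exact Nat.zero_le _
    · exact le_refl _
  | succ R ih =>
    rw [recN]
    exact rnd_bd H i T _ ih.1 ih.2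

@[fun_prop]
private theorem run_pt {R W i : α → ℕ} {H : α → List (List Bool)} {T : α → List Bool}
    (hR : PolyTime R) (hW : PolyTime W) (hH : PolyTime H) (hi : PolyTime i) (hT : PolyTime T) :
    PolyTime (fun a => run (R a) (W a) (H a) (i a) (T a)) := by
  have hh : PolyTime (fun p : (α × ℕ) × List ℕ => rnd (H p.1.1) (i p.1.1) (T p.1.1) p.2) := by
    fun_prop
  refine PolyTime.recN (n := R) (g := fun a => wini (W a) (i a) (T a))
    (h := fun a _ w => rnd (H a) (i a) (T a) w) hR (by fun_prop) hh
    ⟨fun a => i a * (2 * W a + 1), (bdd_nat hi).mul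
      (((Bdd.const 2).mul (bdd_nat hW)).add (Bdd.const 1)), ?_⟩
  intro a k _
  have h1 := run_bd k (W a) (H a) (i a) (T a)
  have h2 : esz (run k (W a) (H a) (i a) (T a)) ≤
      (run k (W a) (H a) (i a) (T a)).length * (2 * W a + 1) := by
    apply esz_list_le
    intro x hx
    rw [esz_nat]
    exact h1.2 x hx
  rw [h1.1] at h2
  exact h2

@[fun_prop]
private theorem tst_pt {R W i : α → ℕ} {H : α → List (List Bool)} {T : α → List Bool}
    (hR : PolyTime R) (hW : PolyTime W) (hH : PolyTime H) (hi : PolyTime i) (hT : PolyTime T) :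
    PolyTime (fun a => tst (R a) (W a) (H a) (i a) (T a)) := by
  unfold tst
  fun_prop

@[fun_prop]
private theorem ini_pt {n q : α → ℕ} (hn : PolyTime n) (hq : PolyTime q) :
    PolyTime (fun a => ini (n a) (q a)) := by
  unfold ini
  fun_prop

private theorem tst_param : PolyTime (fun p : (((ℕ × ℕ) × List (List Bool)) × ℕ) × List Bool =>
      (fun b : (ℕ × ℕ) × List (List Bool) => tst b.1.1 b.1.2 b.2) p.1.1 p.1.2 p.2) := by
  fun_prop

private def candT (R W : ℕ) (H : List (List Bool)) (P i : ℕ) : List (List Bool) :=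
  cand (tst R W H) P i

@[fun_prop]
private theorem candT_pt {R W P i : α → ℕ} {H : α → List (List Bool)} (hR : PolyTime R)
    (hW : PolyTime W) (hH : PolyTime H) (hP : PolyTime P) (hi : PolyTime i) :
    PolyTime (fun a => candT (R a) (W a) (H a) (P a) (i a)) :=
  cand_comp (loc := fun b : (ℕ × ℕ) × List (List Bool) => tst b.1.1 b.1.2 b.2)
    (b := fun a => ((R a, W a), H a)) tst_param (by fun_prop) hP hi

private def truncT (R W : ℕ) (H : List (List Bool)) (P i : ℕ) : Bool :=
  trunc (tst R W H) P i

@[fun_prop]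
private theorem truncT_pt {R W P i : α → ℕ} {H : α → List (List Bool)} (hR : PolyTime R)
    (hW : PolyTime W) (hH : PolyTime H) (hP : PolyTime P) (hi : PolyTime i) :
    PolyTime (fun a => truncT (R a) (W a) (H a) (P a) (i a)) :=
  trunc_comp (loc := fun b : (ℕ × ℕ) × List (List Bool) => tst b.1.1 b.1.2 b.2)
    (b := fun a => ((R a, W a), H a)) tst_param (by fun_prop) hP hi

@[fun_prop]
private theorem allM_pt {P n q : α → ℕ} {E L : α → List (List Bool)} (hP : PolyTime P)
    (hn : PolyTime n) (hE : PolyTime E) (hL : PolyTime L) (hq : PolyTime q) :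
    PolyTime (fun a => allM (P a) (n a) (E a) (L a) (q a)) := by
  have e : ∀ (P n : ℕ) (E L : List (List Bool)) (q : ℕ), allM P n E L q =
      ((List.range n).map fun _ => true) ::
        (List.range n).flatMap fun i => [false, true].flatMap fun e =>
          (candT (8 * q) (ini n q) L P i).flatMap fun T =>
            (candT (8 * q) (ini n q) (E.map fun x => x.reverse) P (n - 1 - i)).map fun Z =>
              T ++ e :: (Z.map fun b => !b).reverse := fun _ _ _ _ _ => rfl
  simp only [e]
  fun_prop

end

theorem feasM_pt : PolyTime (fun p : State × ℕ => feasM p.1.2.2.1 p.1.1.1 p.1.1.2 p.1.2.1 p.2) := by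
  have e : ∀ (P n : ℕ) (E L : List (List Bool)) (q : ℕ), feasM P n E L q =
      ((decide (cap (4 * n + 4) q < 4 * n + 4) && decide (n < cap (4 * n + 4) q)) &&
        (!(truncT (8 * q) (ini n q) L P n) &&
          !(truncT (8 * q) (ini n q) (E.map fun x => x.reverse) P n))) := fun _ _ _ _ _ => rfl
  simp only [e]
  fun_prop

theorem nextM_pt : PolyTime (fun p : State × ℕ => nextM p.1.2.2.1 p.1.1.1 p.1.1.2 p.1.2.1 p.2) := by
  unfold nextM
  fun_prop

end Pool.Agent.Helper16.LS
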