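import Mathlib
import Pool.Agent.Helper33.TC.Core

/-!
# LS-07: the greedy minimal witness (uses only the definitions of TC.Core)

PROOF. `y 0 = g`, `y (i + 1) = (y i).erase ⟨i, _⟩` if `i < n` and this is a witness, else `y i`; `P = y n`. All `y i` are
witnesses. `y (i + 1) ⊆ y i`; `y i` and `y j` (`i ≤ j`) agree below `i`; `y i` and `g` agree from `i` on. So
`y i = (P ∩ VI n i) ∪ (g \ VI n i)` for `i ≤ n`, and for `i ≥ n` the right side is `P = y n` (put `y i = y n`).
If `t ∈ P`, `t < i` then `(y t).erase t` is not a witness (otherwise `t ∉ y (t + 1)`); it contains no member of `F`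
(subset of a witness), so it does not meet some `B ∈ G`; `(y i).erase t ⊆ (y t).erase t` does not meet `B` either.
-/

set_option autoImplicit false

namespace Pool.Agent.Helper16.LS

open Pool.Agent.Helper33.TC

variable {n : ℕ}

private lemma nested_mono {F G : Finset (Finset (Fin n))} {y z z' : Finset (Fin n)}
    (hy : Wit F G y) (h1 : z ⊆ z') (h2 : z' ⊆ y) (hz : Wit F G z) : Wit F G z' := by
  refine ⟨fun B hB => ?_, fun A hA h => hy.2 A hA (h.trans h2)⟩
  obtain ⟨x, hx⟩ := hz.1 B hB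
  rw [Finset.mem_inter] at hx
  exact ⟨x, Finset.mem_inter.2 ⟨hx.1, h1 hx.2⟩⟩

private lemma nested_aux (F G : Finset (Finset (Fin n))) (g : Finset (Fin n)) (hg : Wit F G g)
    (m : ℕ) (hm : m ≤ n) :
    ∃ P ⊆ g, (∀ t : Fin n, m ≤ (t : ℕ) → (t ∈ P ↔ t ∈ g)) ∧
      ∀ i : ℕ, i ≤ m → Wit F G ((P ∩ VI n i) ∪ (g \ VI n i)) ∧
      ∀ t ∈ P ∩ VI n i, ¬ Wit F G (((P ∩ VI n i) ∪ (g \ VI n i)).erase t) := by
  induction m with
  | zero =>
    refine ⟨g, subset_rfl, fun t _ => Iff.rfl, fun i hi => ?_⟩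
    have hi0 : i = 0 := by omega
    subst hi0
    have e1 : (g ∩ VI n 0) ∪ (g \ VI n 0) = g := by
      ext x; simp only [Finset.mem_union, Finset.mem_inter, Finset.mem_sdiff]; tauto
    rw [e1]
    refine ⟨hg, fun t ht => ?_⟩
    rw [Finset.mem_inter, mem_VI] at ht
    omega
  | succ m ih =>
    obtain ⟨P, hPg, hP, hprop⟩ := ih (by omega)
    obtain ⟨hw, hmin⟩ := hprop m le_rfl
    have heq : (P ∩ VI n m) ∪ (g \ VI n m) = P := by
      ext x
      simp only [Finset.mem_union, Finset.mem_inter, Finset.mem_sdiff, mem_VI]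
      by_cases hx : (x : ℕ) < m
      · simp [hx]
      · have := hP x (by omega)
        simp [hx, this]
    rw [heq] at hw hmin
    have hcommon : ∀ Q : Finset (Fin n), Q ⊆ P → (∀ t : Fin n, t ∈ P → (t : ℕ) ≠ m → t ∈ Q) →
        (∀ t : Fin n, m + 1 ≤ (t : ℕ) → (t ∈ Q ↔ t ∈ g)) ∧
        (∀ i, i ≤ m → Q ∩ VI n i = P ∩ VI n i) ∧ (Q ∩ VI n (m + 1)) ∪ (g \ VI n (m + 1)) = Q := by
      intro Q hQP hQ
      have h1 : ∀ t : Fin n, m + 1 ≤ (t : ℕ) → (t ∈ Q ↔ t ∈ g) := by
        intro t ht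
        rw [← hP t (by omega)]
        exact ⟨fun h => hQP h, fun h => hQ t h (by omega)⟩
      refine ⟨h1, fun i hi => ?_, ?_⟩
      · ext x
        simp only [Finset.mem_inter, mem_VI]
        constructor
        · exact fun h => ⟨hQP h.1, h.2⟩
        · exact fun h => ⟨hQ x h.1 (by omega), h.2⟩
      · ext x
        simp only [Finset.mem_union, Finset.mem_inter, Finset.mem_sdiff, mem_VI]
        by_cases hx : (x : ℕ) < m + 1
        · simp [hx]
        · have := h1 x (by omega)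
          simp [hx, this]
    have hfin : ∀ Q : Finset (Fin n), Q ⊆ P → (∀ t : Fin n, t ∈ P → (t : ℕ) ≠ m → t ∈ Q) →
        Wit F G Q → (∀ t : Fin n, (t : ℕ) = m → t ∈ Q → ¬ Wit F G (Q.erase t)) →
        ∃ P ⊆ g, (∀ t : Fin n, m + 1 ≤ (t : ℕ) → (t ∈ P ↔ t ∈ g)) ∧
          ∀ i : ℕ, i ≤ m + 1 → Wit F G ((P ∩ VI n i) ∪ (g \ VI n i)) ∧
          ∀ t ∈ P ∩ VI n i, ¬ Wit F G (((P ∩ VI n i) ∪ (g \ VI n i)).erase t) := by
      intro Q hQP hQ hWQ hlast
      obtain ⟨h1, h2, h3⟩ := hcommon Q hQP hQ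
      refine ⟨Q, hQP.trans hPg, h1, fun i hi => ?_⟩
      by_cases him : i ≤ m
      · rw [h2 i him]
        exact hprop i him
      · have hi' : i = m + 1 := by omega
        subst hi'
        rw [h3]
        refine ⟨hWQ, fun t ht hW => ?_⟩
        rw [Finset.mem_inter, mem_VI] at ht
        by_cases htm : (t : ℕ) = m
        · exact hlast t htm ht.1 hW
        · refine hmin t (Finset.mem_inter.2 ⟨hQP ht.1, mem_VI.2 (by omega)⟩) ?_
          exact nested_mono hw (Finset.erase_subset_erase t hQP) (Finset.erase_subset t P) hW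
    by_cases hWe : Wit F G (P.erase ⟨m, by omega⟩)
    · refine hfin (P.erase ⟨m, by omega⟩) (Finset.erase_subset _ _) ?_ hWe ?_
      · intro t ht htm
        rw [Finset.mem_erase]
        exact ⟨fun h => htm (by rw [h]), ht⟩
      · intro t htm ht
        rw [Finset.mem_erase] at ht
        exact absurd (Fin.ext htm) ht.1
    · refine hfin P subset_rfl (fun t ht _ => ht) hw ?_
      intro t htm _ hW
      have : t = ⟨m, by omega⟩ := Fin.ext htm
      rw [this] at hW
      exact hWe hW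

theorem exists_nested (F G : Finset (Finset (Fin n))) (g : Finset (Fin n)) (hg : Wit F G g) :
    ∃ P ⊆ g, ∀ i : ℕ, Wit F G ((P ∩ VI n i) ∪ (g \ VI n i)) ∧
      ∀ t ∈ P ∩ VI n i, ¬ Wit F G (((P ∩ VI n i) ∪ (g \ VI n i)).erase t) := by
  obtain ⟨P, hPg, -, hprop⟩ := nested_aux F G g hg n le_rfl
  refine ⟨P, hPg, fun i => ?_⟩
  by_cases hi : i ≤ n
  · exact hprop i hi
  · have e1 : VI n i = VI n n := by
      ext x
      rw [mem_VI, mem_VI]
      have := x.2
      constructor <;> intro _ <;> omega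
    rw [e1]
    exact hprop n le_rfl

end Pool.Agent.Helper16.LS
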