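import Mathlib
import Pool.Agent.Helper33.TC.Core
import Pool.Agent.Helper16.LS.Defs
import Pool.Agent.Helper16.LS.Nested

/-!
# LS-08: the structure theorem (uses LS-07, `exists_largest` of TC.Core)

`p j T` / `s j Z` mean that the prefix set `T ⊆ V_j` / the suffix set `Z` (outside `V_j`) is accepted.

PROOF. `g` = the largest witness (`exists_largest`), `P` from `exists_nested`, `Z = gᶜ`. `P ∩ VI n n = P` is a
witness, so it is nonempty (`G ≠ ∅`) and contains no member of `F`: not accepted (`hpn`). Let `i + 1` be the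
least `j ≤ n` with `¬ p j (P ∩ VI n j)` (it is not `0`: `hp` and the empty sum). `hp` gives `w`. Suppose `¬ s j (Z \ VI n j)`,
`i < j ≤ n`; `hs` gives `u`. Let `Pi = P ∩ VI n (i + 1)`, `y = Pi ∪ (g \ VI n (i + 1))`. As in `bad_cover` of TC.Core: for `t ∈ Pi` there is
`B t ∈ G` with `B t ∩ y = {t}`, for `z ∈ Z \ VI n j` there is `A z ∈ F` with `z ∈ A z ⊆ insert z y`. `B t ∩ (VI n j)ᶜ ⊆ Z \ VI n j`, so
`2 ∑ u (B t ∩ ..) < ∑ u`; `A z ∩ VI n (i + 1) ⊆ Pi`, so `2 ∑ w (A z ∩ Pi) < ∑ w`; `t ∈ A z` or `z ∈ B t` (cross-intersection).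
Double counting of `∑_{t, z} w t * u z`: `2 ∑_{z ∈ B t} < ∑`, and `2 ∑_{t ∈ A z} < ∑`, but the sum of both is at
least `2 ∑_t ∑_z w t * u z`: a contradiction (strict since `∑ w > 0`, `∑ u > 0`).
-/

set_option autoImplicit false

namespace Pool.Agent.Helper16.LS

open Pool.Agent.Helper33.TC

variable {n : ℕ}

/-- Private members of `G`. -/
theorem exists_private (F G : Finset (Finset (Fin n))) (y : Finset (Fin n)) (hW : Wit F G y)
    (t : Fin n) (h : ¬ Wit F G (y.erase t)) : ∃ B ∈ G, B ∩ y = {t} := by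
  unfold Wit at h
  rw [not_and_or] at h
  rcases h with h1 | h1
  · push Not at h1
    obtain ⟨B, hBG, hBe⟩ := h1
    refine ⟨B, hBG, ?_⟩
    obtain ⟨x, hx⟩ := hW.1 B hBG
    have hxt : x = t := by
      by_contra hne
      have : x ∈ B ∩ y.erase t :=
        Finset.mem_inter.2 ⟨(Finset.mem_inter.1 hx).1,
          Finset.mem_erase.2 ⟨hne, (Finset.mem_inter.1 hx).2⟩⟩
      rw [hBe] at this
      exact absurd this (Finset.notMem_empty _)
    subst hxt
    apply Finset.Subset.antisymm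
    · intro w hw
      by_contra hne
      have : w ∈ B ∩ y.erase x :=
        Finset.mem_inter.2 ⟨(Finset.mem_inter.1 hw).1,
          Finset.mem_erase.2 ⟨fun e => hne (Finset.mem_singleton.2 e),
            (Finset.mem_inter.1 hw).2⟩⟩
      rw [hBe] at this
      exact absurd this (Finset.notMem_empty _)
    · exact Finset.singleton_subset_iff.2 hx
  · exfalso
    apply h1
    intro A hA hAs
    exact hW.2 A hA (hAs.trans (Finset.erase_subset _ _))

/-- Members of `F` for the critical zeros. -/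
theorem exists_critical (F G : Finset (Finset (Fin n))) (y : Finset (Fin n)) (hW : Wit F G y)
    (z : Fin n) (h : ¬ Wit F G (insert z y)) : ∃ A ∈ F, z ∈ A ∧ A ⊆ insert z y := by
  unfold Wit at h
  rw [not_and_or] at h
  rcases h with h1 | h1
  · exfalso
    apply h1
    intro B hBG
    obtain ⟨x, hx⟩ := hW.1 B hBG
    exact ⟨x, Finset.mem_inter.2 ⟨(Finset.mem_inter.1 hx).1,
      Finset.mem_insert_of_mem (Finset.mem_inter.1 hx).2⟩⟩
  · push Not at h1
    obtain ⟨A, hAF, hAs⟩ := h1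
    refine ⟨A, hAF, ?_, hAs⟩
    by_contra hzA
    apply hW.2 A hAF
    intro x hx
    rcases Finset.mem_insert.1 (hAs hx) with rfl | hx'
    · exact absurd hx hzA
    · exact hx'

/-- The double counting. -/
theorem double_count (P Z : Finset (Fin n)) (A B : Fin n → Finset (Fin n)) (w u : Fin n → ℕ)
    (h : ∀ t ∈ P, ∀ z ∈ Z, t ∈ A z ∨ z ∈ B t) (hw : 0 < ∑ t ∈ P, w t) (hu : 0 < ∑ z ∈ Z, u z)
    (hA : ∀ z ∈ Z, 2 * ∑ t ∈ A z ∩ P, w t < ∑ t ∈ P, w t)
    (hB : ∀ t ∈ P, 2 * ∑ z ∈ B t ∩ Z, u z < ∑ z ∈ Z, u z) : False := by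
  classical
  have h1 : ∑ t ∈ P, ∑ z ∈ Z, w t * u z ≤
      (∑ z ∈ Z, u z * ∑ t ∈ A z ∩ P, w t) + ∑ t ∈ P, w t * ∑ z ∈ B t ∩ Z, u z := by
    have e1 : ∑ z ∈ Z, u z * ∑ t ∈ A z ∩ P, w t =
        ∑ t ∈ P, ∑ z ∈ Z, (if t ∈ A z then w t * u z else 0) := by
      rw [Finset.sum_comm]
      refine Finset.sum_congr rfl fun z _ => ?_
      rw [Finset.inter_comm, ← Finset.filter_mem_eq_inter, Finset.sum_filter, Finset.mul_sum]
      refine Finset.sum_congr rfl fun t _ => ?_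
      split_ifs
      · rw [mul_comm]
      · rw [mul_zero]
    have e2 : ∑ t ∈ P, w t * ∑ z ∈ B t ∩ Z, u z =
        ∑ t ∈ P, ∑ z ∈ Z, (if z ∈ B t then w t * u z else 0) := by
      refine Finset.sum_congr rfl fun t _ => ?_
      rw [Finset.inter_comm, ← Finset.filter_mem_eq_inter, Finset.sum_filter, Finset.mul_sum]
      refine Finset.sum_congr rfl fun z _ => ?_
      split_ifs
      · rfl
      · rw [mul_zero]
    rw [e1, e2, ← Finset.sum_add_distrib]
    refine Finset.sum_le_sum fun t ht => ?_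
    rw [← Finset.sum_add_distrib]
    refine Finset.sum_le_sum fun z hz => ?_
    rcases h t ht z hz with h' | h'
    · rw [if_pos h']
      exact Nat.le_add_right _ _
    · rw [if_pos h']
      exact Nat.le_add_left _ _
  have h2 : ∑ t ∈ P, ∑ z ∈ Z, w t * u z = (∑ t ∈ P, w t) * ∑ z ∈ Z, u z := by
    rw [Finset.sum_mul_sum]
  have h3 : 2 * (∑ z ∈ Z, u z * ∑ t ∈ A z ∩ P, w t) ≤ (∑ z ∈ Z, u z) * ∑ t ∈ P, w t := by
    rw [Finset.mul_sum, Finset.sum_mul]
    refine Finset.sum_le_sum fun z hz => ?_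
    calc 2 * (u z * ∑ t ∈ A z ∩ P, w t) = u z * (2 * ∑ t ∈ A z ∩ P, w t) := by ring
      _ ≤ _ := Nat.mul_le_mul_left _ (hA z hz).le
  have h4 : 2 * (∑ t ∈ P, w t * ∑ z ∈ B t ∩ Z, u z) < (∑ t ∈ P, w t) * ∑ z ∈ Z, u z := by
    rw [Finset.mul_sum, Finset.sum_mul]
    have hpos : ∃ t ∈ P, 0 < w t := by
      by_contra hcon
      push Not at hcon
      have : ∑ t ∈ P, w t = 0 := Finset.sum_eq_zero fun t ht => Nat.le_zero.1 (hcon t ht)
      omega
    obtain ⟨t₀, ht₀, hw₀⟩ := hpos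
    refine Finset.sum_lt_sum (fun t ht => ?_) ⟨t₀, ht₀, ?_⟩
    · calc 2 * (w t * ∑ z ∈ B t ∩ Z, u z) = w t * (2 * ∑ z ∈ B t ∩ Z, u z) := by ring
        _ ≤ _ := Nat.mul_le_mul_left _ (hB t ht).le
    · calc 2 * (w t₀ * ∑ z ∈ B t₀ ∩ Z, u z) = w t₀ * (2 * ∑ z ∈ B t₀ ∩ Z, u z) := by ring
        _ < _ := Nat.mul_lt_mul_of_pos_left (hB t₀ ht₀) hw₀
  rw [h2] at h1
  have h5 : (∑ z ∈ Z, u z) * ∑ t ∈ P, w t = (∑ t ∈ P, w t) * ∑ z ∈ Z, u z := mul_comm _ _
  rw [h5] at h3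
  omega

theorem struct (F G : Finset (Finset (Fin n))) (hcross : ∀ A ∈ F, ∀ B ∈ G, (A ∩ B).Nonempty)
    (hG : G.Nonempty) (p s : ℕ → Finset (Fin n) → Prop)
    (hp : ∀ i ≤ n, ∀ T ⊆ VI n i, ¬ p i T → Rej F (VI n i) T)
    (hpn : ∀ T : Finset (Fin n), T.Nonempty → (∀ A ∈ F, ¬ A ⊆ T) → ¬ p n T)
    (hs : ∀ i ≤ n, ∀ T ⊆ (VI n i)ᶜ, ¬ s i T → Rej G (VI n i)ᶜ T)
    (y₀ : Finset (Fin n)) (h₀ : Wit F G y₀) :
    ∃ i : Fin n, ∃ e ⊆ ({i} : Finset (Fin n)), ∃ P Z : Finset (Fin n),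
      (∀ j ≤ (i : ℕ), p j (P ∩ VI n j)) ∧ (∀ j, (i : ℕ) < j → j ≤ n → s j (Z \ VI n j)) ∧
      Wit F G ((P ∩ VI n i) ∪ (e ∪ ((VI n (i + 1))ᶜ \ Z))) := by
  classical
  obtain ⟨g, hg, hmax⟩ := exists_largest F G y₀ h₀
  obtain ⟨P, hPg, hPW⟩ := exists_nested F G g hg
  have hz : ∀ i, ∀ z ∉ VI n i, z ∉ g → ¬ Wit F G (insert z ((P ∩ VI n i) ∪ (g \ VI n i))) := by
    intro i z hz hzg hW
    obtain ⟨b, hbg, hby, hzb⟩ := hmax _ hW z (Finset.mem_insert_self _ _) hzg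
    apply hby
    refine Finset.mem_insert_of_mem (Finset.mem_union_right _ (Finset.mem_sdiff.2 ⟨hbg, ?_⟩))
    rw [mem_VI] at hz ⊢
    have : (z : ℕ) < b := hzb
    omega
  have hV : VI n n = Finset.univ := by
    ext x
    simp [mem_VI]
  have hn : ¬ p n (P ∩ VI n n) := by
    have hW := (hPW n).1
    rw [hV, Finset.sdiff_eq_empty_iff_subset.2 (Finset.subset_univ g), Finset.union_empty,
      Finset.inter_univ] at hW
    rw [hV, Finset.inter_univ]
    apply hpn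
    · obtain ⟨B, hB⟩ := hG
      obtain ⟨x, hx⟩ := hW.1 B hB
      exact ⟨x, (Finset.mem_inter.1 hx).2⟩
    · exact hW.2
  have h0 : p 0 (P ∩ VI n 0) := by
    by_contra hcon
    obtain ⟨w, hw, -⟩ := hp 0 (Nat.zero_le _) _ Finset.inter_subset_right hcon
    have h1 : P ∩ VI n 0 = ∅ := by
      ext x
      simp [mem_VI]
    rw [h1, Finset.sum_empty] at hw
    exact lt_irrefl _ hw
  obtain ⟨i, hin, hi1, hi2⟩ : ∃ i, i < n ∧ (∀ j ≤ i, p j (P ∩ VI n j)) ∧
      ¬ p (i + 1) (P ∩ VI n (i + 1)) := by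
    by_contra hcon
    push Not at hcon
    have : ∀ i ≤ n, ∀ j ≤ i, p j (P ∩ VI n j) := by
      intro i
      induction i with
      | zero =>
        intro _ j hj
        rw [Nat.le_zero.1 hj]
        exact h0
      | succ i ih =>
        intro h j hj
        rcases Nat.lt_or_ge j (i + 1) with h1 | h1
        · exact ih (by omega) j (by omega)
        · rw [show j = i + 1 by omega]
          exact hcon i (by omega) (ih (by omega))
    exact hn (this n le_rfl n le_rfl)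
  refine ⟨⟨i, hin⟩, g ∩ {⟨i, hin⟩}, Finset.inter_subset_right, P, gᶜ, hi1, ?_, ?_⟩
  · intro j hij hjn
    by_contra hsj
    have hij' : i < j := hij
    obtain ⟨w, hw, hwA⟩ := hp (i + 1) (by omega) _ Finset.inter_subset_right hi2
    obtain ⟨u, hu, huB⟩ := hs j hjn (gᶜ \ VI n j) (by
      intro x hx
      exact Finset.mem_compl.2 (Finset.mem_sdiff.1 hx).2) hsj
    have hWy := (hPW (i + 1)).1
    have hB : ∀ t ∈ P ∩ VI n (i + 1), ∃ B ∈ G,
        B ∩ ((P ∩ VI n (i + 1)) ∪ (g \ VI n (i + 1))) = {t} := fun t ht =>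
      exists_private F G _ hWy t ((hPW (i + 1)).2 t ht)
    have hzV : ∀ z ∈ gᶜ \ VI n j, z ∉ VI n (i + 1) ∧ z ∉ g := by
      intro z hz
      rw [Finset.mem_sdiff, Finset.mem_compl, mem_VI] at hz
      rw [mem_VI]
      exact ⟨by omega, hz.1⟩
    have hA : ∀ z ∈ gᶜ \ VI n j, ∃ A ∈ F, z ∈ A ∧
        A ⊆ insert z ((P ∩ VI n (i + 1)) ∪ (g \ VI n (i + 1))) := fun z hz' =>
      exists_critical F G _ hWy z (hz (i + 1) z (hzV z hz').1 (hzV z hz').2)
    choose! B hBG hBy using hB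
    choose! A hAF hzA hAs using hA
    refine double_count (P ∩ VI n (i + 1)) (gᶜ \ VI n j) A B w u ?_ hw hu ?_ ?_
    · intro t ht z hz'
      obtain ⟨x, hx⟩ := hcross (A z) (hAF z hz') (B t) (hBG t ht)
      obtain ⟨hx1, hx2⟩ := Finset.mem_inter.1 hx
      rcases Finset.mem_insert.1 (hAs z hz' hx1) with rfl | hx3
      · exact Or.inr hx2
      · have : x ∈ B t ∩ ((P ∩ VI n (i + 1)) ∪ (g \ VI n (i + 1))) :=
          Finset.mem_inter.2 ⟨hx2, hx3⟩
        rw [hBy t ht, Finset.mem_singleton] at this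
        rw [← this]
        exact Or.inl hx1
    · intro z hz'
      refine hwA (A z) (hAF z hz') ?_
      intro x hx
      obtain ⟨hx1, hx2⟩ := Finset.mem_inter.1 hx
      rcases Finset.mem_insert.1 (hAs z hz' hx1) with rfl | hx3
      · exact absurd hx2 (hzV _ hz').1
      · rcases Finset.mem_union.1 hx3 with h3 | h3
        · exact h3
        · exact absurd hx2 (Finset.mem_sdiff.1 h3).2
    · intro t ht
      refine huB (B t) (hBG t ht) ?_
      intro x hx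
      obtain ⟨hx1, hx2⟩ := Finset.mem_inter.1 hx
      have hx3 : x ∉ VI n j := Finset.mem_compl.1 hx2
      rw [Finset.mem_sdiff, Finset.mem_compl]
      refine ⟨fun hxg => ?_, hx3⟩
      have hx4 : x ∉ VI n (i + 1) := by
        rw [mem_VI] at hx3 ⊢
        omega
      have : x ∈ B t ∩ ((P ∩ VI n (i + 1)) ∪ (g \ VI n (i + 1))) :=
        Finset.mem_inter.2 ⟨hx1, Finset.mem_union_right _ (Finset.mem_sdiff.2 ⟨hxg, hx4⟩)⟩
      rw [hBy t ht, Finset.mem_singleton] at this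
      rw [this] at hx4
      exact hx4 (Finset.mem_inter.1 ht).2
  · have hfin : (P ∩ VI n i) ∪ (g ∩ {⟨i, hin⟩} ∪ ((VI n (i + 1))ᶜ \ gᶜ)) =
        (P ∩ VI n i) ∪ (g \ VI n i) := by
      congr 1
      ext x
      simp only [Finset.mem_union, Finset.mem_inter, Finset.mem_singleton, Finset.mem_sdiff,
        Finset.mem_compl, mem_VI, Fin.ext_iff, not_not]
      constructor
      · rintro (⟨h1, h2⟩ | ⟨h1, h2⟩)
        · exact ⟨h1, by omega⟩
        · exact ⟨h2, by omega⟩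
      · rintro ⟨h1, h2⟩
        by_cases h3 : (x : ℕ) = i
        · exact Or.inl ⟨h1, h3⟩
        · exact Or.inr ⟨by omega, h1⟩
    change Wit F G ((P ∩ VI n i) ∪ (g ∩ {⟨i, hin⟩} ∪ ((VI n (i + 1))ᶜ \ gᶜ)))
    rw [hfin]
    exact (hPW i).1

end Pool.Agent.Helper16.LS
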