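import Mathlib
import Pool.Agent.Helper81.VCP.K3
import Pool.Agent.Helper81.VCP.K5
import Pool.Agent.Helper81.VCP.K7
import Pool.Agent.Helper33.TC.Core
import Pool.Agent.Helper33.TCM.Search
import Pool.Agent.Helper16.LS.Defs
import Pool.Agent.Helper16.LS.Dict
import Pool.Agent.Helper16.LS.Struct

/-!
# LS-09: correctness of the search (uses LS-06, LS-08, VCP.K5; copy of TCM.Search)

`nextM_some`: all candidates have length `n` (`length_of_mem_cand`), then as `nextY_some`.

`nextM_none`: as `nextY_none`, with `struct` instead of `trace_cover`, `F = L.toFinset`, `G = E.toFinset`,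
`p i T := tst (8 q) (2 ^ (8 q)) (L.map vec) i (pre i T) = true`,
`s i T := tst (8 q) (2 ^ (8 q)) ((E.map rv).map vec) (n - i) (pre (n - i) (rv T)) = true`.
`ini n q = 2 ^ (8 q)` by `cap_eq` and the first test in `feasM`. `hp`: `rej_of_tst`. `hs`: `rej_of_tst` for `E.map rv`
and `n - i`, and `Rej` is invariant under `rv` (`rv (VI n i)ᶜ = VI n (n - i)`, weights `w ∘ Fin.rev`).
`hpn`: `cov_of_tst` (`0 < 8 q` since `n < 2 ^ q` and `n > 0`): `f 0 ∈ F` is contained in `T`.
The candidate: `pre i P ∈ cand .. i` and `pre (n - 1 - i) (rv Z) ∈ cand .. (n - 1 - i)` by `mem_cand` (`pre j (P ∩ VI n j) = pre j P`: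
`pre_inter`; `rv (Z \ VI n j) = rv Z ∩ VI n (n - j)`), and
`pre i P ++ decide (i ∈ e) :: ((pre (n - 1 - i) (rv Z)).map not).reverse = vec (..)` (compare the entries).
-/

set_option autoImplicit false

namespace Pool.Agent.Helper16.LS

open Pool.Agent.Helper36 Pool.Agent.Helper81.VCP

variable {n : ℕ}

private theorem ls9_mem_rv (A : Finset (Fin n)) (x : Fin n) : x ∈ rv A ↔ Fin.rev x ∈ A := by
  unfold rv
  rw [Finset.mem_image]
  constructor
  · rintro ⟨y, hy, rfl⟩
    rwa [Fin.rev_rev]
  · intro h
    exact ⟨Fin.rev x, h, Fin.rev_rev x⟩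

private theorem ls9_sum_rv (w : Fin n → ℕ) (T : Finset (Fin n)) :
    ∑ t ∈ rv T, w t = ∑ t ∈ T, w (Fin.rev t) := by
  unfold rv
  rw [Finset.sum_image]
  intro x _ y _ h
  exact Fin.rev_injective h

private theorem ls9_rv_inter (A B : Finset (Fin n)) : rv (A ∩ B) = rv A ∩ rv B := by
  ext x
  rw [Finset.mem_inter, ls9_mem_rv, ls9_mem_rv, ls9_mem_rv, Finset.mem_inter]

private theorem ls9_pre_rv (Z : Finset (Fin n)) (j : ℕ) (hj : j ≤ n) :
    pre (n - j) (rv (Z \ Pool.Agent.Helper33.TC.VI n j)) = pre (n - j) (rv Z) := by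
  rw [pre_eq_iff]
  ext x
  rw [Finset.mem_inter, Finset.mem_inter, ls9_mem_rv, ls9_mem_rv, Finset.mem_sdiff,
    Pool.Agent.Helper33.TC.mem_VI, Fin.val_rev]
  have hVI : x ∈ Pool.Agent.Helper81.VCP.VI n (n - j) ↔ (x : ℕ) < n - j := by
    simp [Pool.Agent.Helper81.VCP.VI]
  rw [hVI]
  constructor
  · rintro ⟨⟨h1, _⟩, h2⟩
    exact ⟨h1, h2⟩
  · rintro ⟨h1, h2⟩
    exact ⟨⟨h1, by omega⟩, h2⟩

private theorem ls9_pre_inter (P : Finset (Fin n)) (j : ℕ) :
    pre j (P ∩ Pool.Agent.Helper33.TC.VI n j) = pre j P := pre_inter j P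

/-- the vector of the candidate -/
private theorem ls9_vec (i : Fin n) (e : Finset (Fin n)) (he : e ⊆ {i}) (P Z : Finset (Fin n)) :
    pre (i : ℕ) P ++ decide (i ∈ e) :: ((pre (n - 1 - (i : ℕ)) (rv Z)).map not).reverse =
      vec ((P ∩ Pool.Agent.Helper33.TC.VI n i) ∪
        (e ∪ ((Pool.Agent.Helper33.TC.VI n (i + 1))ᶜ \ Z))) := by
  have hi := i.2
  have hl1 : (pre (i : ℕ) P).length = i := length_pre _ i.2.le P
  have hl2 : (pre (n - 1 - (i : ℕ)) (rv Z)).length = n - 1 - i := length_pre _ (by omega) _
  have hlen : (pre (i : ℕ) P ++ decide (i ∈ e) ::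
      ((pre (n - 1 - (i : ℕ)) (rv Z)).map not).reverse).length = n := by
    rw [List.length_append, List.length_cons, List.length_reverse, List.length_map, hl1, hl2]
    omega
  apply ext_mem_K3
  · rw [hlen, length_vec]
  · intro j hj
    rw [hlen] at hj
    obtain ⟨j, rfl⟩ : ∃ j' : Fin n, j = (j' : ℕ) := ⟨⟨j, hj⟩, rfl⟩
    rw [mem_vec_fin]
    simp only [Finset.mem_union, Finset.mem_inter, Finset.mem_sdiff, Finset.mem_compl,
      Pool.Agent.Helper33.TC.mem_VI]
    rcases lt_trichotomy (j : ℕ) i with h | h | h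
    · have h1 : mem (pre (i : ℕ) P ++ decide (i ∈ e) ::
          ((pre (n - 1 - (i : ℕ)) (rv Z)).map not).reverse) (j : ℕ) = mem (pre (i : ℕ) P) j := by
        unfold mem
        rw [List.getD_append _ _ _ _ (by rw [hl1]; exact h)]
      rw [h1, mem_pre]
      constructor
      · rintro ⟨_, _, h2⟩
        exact Or.inl ⟨h2, h⟩
      · rintro (⟨h2, _⟩ | h2 | ⟨h2, _⟩)
        · exact ⟨h, j.2, h2⟩
        · have h3 : j = i := Finset.mem_singleton.1 (he h2)
          rw [h3] at h
          exact absurd h (lt_irrefl _)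
        · omega
    · have hji : j = i := Fin.ext h
      subst hji
      have h1 : mem (pre (j : ℕ) P ++ decide (j ∈ e) ::
          ((pre (n - 1 - (j : ℕ)) (rv Z)).map not).reverse) (j : ℕ) = decide (j ∈ e) := by
        unfold mem
        rw [List.getD_append_right _ _ _ _ (by rw [hl1]), hl1, Nat.sub_self, List.getD_cons_zero]
      rw [h1, decide_eq_true_eq]
      constructor
      · intro h2
        exact Or.inr (Or.inl h2)
      · rintro (⟨_, h2⟩ | h2 | ⟨h2, _⟩)
        · exact absurd h2 (lt_irrefl _)
        · exact h2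
        · omega
    · have h1 : mem (pre (i : ℕ) P ++ decide (i ∈ e) ::
          ((pre (n - 1 - (i : ℕ)) (rv Z)).map not).reverse) (j : ℕ) =
          !(mem (pre (n - 1 - (i : ℕ)) (rv Z)) (n - 1 - j)) := by
        have hj' := j.2
        unfold mem
        rw [List.getD_append_right _ _ _ _ (by rw [hl1]; exact h.le), hl1]
        obtain ⟨k, hk⟩ : ∃ k, (j : ℕ) - i = k + 1 := ⟨(j : ℕ) - i - 1, by omega⟩
        rw [hk, List.getD_cons_succ]
        have hkl : k < ((pre (n - 1 - (i : ℕ)) (rv Z)).map not).reverse.length := by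
          rw [List.length_reverse, List.length_map, hl2]
          omega
        have hkl' : n - 1 - (j : ℕ) < (pre (n - 1 - (i : ℕ)) (rv Z)).length := by
          rw [hl2]
          omega
        rw [List.getD_eq_getElem _ _ hkl, List.getD_eq_getElem _ _ hkl', List.getElem_reverse,
          List.getElem_map]
        congr 2
        rw [List.length_map, hl2]
        omega
      rw [h1, Bool.not_eq_true', ← Bool.not_eq_true, mem_pre]
      have hj' := j.2
      have hrev : ∀ hh : n - 1 - (j : ℕ) < n, (⟨n - 1 - (j : ℕ), hh⟩ : Fin n) ∈ rv Z ↔ j ∈ Z := by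
        intro hh
        rw [ls9_mem_rv]
        have : Fin.rev (⟨n - 1 - (j : ℕ), hh⟩ : Fin n) = j := by
          apply Fin.ext
          rw [Fin.val_rev]
          change n - (n - 1 - (j : ℕ) + 1) = j
          omega
        rw [this]
      constructor
      · intro h2
        right; right
        refine ⟨by omega, fun h3 => h2 ⟨by omega, by omega, (hrev (by omega)).2 h3⟩⟩
      · rintro (⟨_, h2⟩ | h2 | ⟨_, h2⟩)
        · omega
        · have h3 : j = i := Finset.mem_singleton.1 (he h2)
          rw [h3] at h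
          exact absurd h (lt_irrefl _)
        · rintro ⟨_, h3, h4⟩
          exact h2 ((hrev h3).1 h4)

private theorem ls9_length (P q : ℕ) (E L : List (List Bool)) (Z : List Bool)
    (h : Z ∈ allM P n E L q) : Z.length = n := by
  unfold allM at h
  rcases List.mem_cons.1 h with rfl | h
  · simp
  · rw [List.mem_flatMap] at h
    obtain ⟨i, hi, h⟩ := h
    rw [List.mem_flatMap] at h
    obtain ⟨e, _, h⟩ := h
    rw [List.mem_flatMap] at h
    obtain ⟨T, hT, h⟩ := h
    rw [List.mem_map] at h
    obtain ⟨Z', hZ', rfl⟩ := h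
    have h1 := length_of_mem_cand _ _ _ _ hT
    have h2 := length_of_mem_cand _ _ _ _ hZ'
    rw [List.length_append, List.length_cons, List.length_reverse, List.length_map, h1, h2]
    have := List.mem_range.1 hi
    omega

theorem nextM_some (P q : ℕ) (E L : List (Finset (Fin n))) (v : List Bool)
    (h : nextM P n (E.map vec) (L.map vec) q = some v) :
    ∃ T : Finset (Fin n), v = vec T ∧ MinTr E T ∧ ∀ B ∈ L, ¬ B ⊆ T := by
  unfold nextM at h
  obtain ⟨Z, hfind, hv⟩ := Option.map_eq_some_iff.1 h
  have hgood := List.find?_some hfind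
  obtain ⟨Z', rfl⟩ := vec_surj Z (ls9_length P q _ _ Z (List.mem_of_find?_eq_some hfind))
  unfold good at hgood
  rw [Bool.and_eq_true] at hgood
  obtain ⟨T, h1, h2, h3⟩ := minim_spec E Z' ((hits_vec E Z').1 hgood.1)
  refine ⟨T, by rw [← hv, h1], h2, fun B hB hBT => ?_⟩
  exact (avoids_vec L Z').1 hgood.2 B hB (hBT.trans h3)

theorem nextM_none (P q : ℕ) (E L : List (Finset (Fin n))) (hL : ∀ B ∈ L, MinTr E B)
    (hf : feasM P n (E.map vec) (L.map vec) q = true)
    (h : nextM P n (E.map vec) (L.map vec) q = none) :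
    ∀ T : Finset (Fin n), MinTr E T → T ∈ L := by
  classical
  unfold feasM at hf
  rw [Bool.and_eq_true, Bool.and_eq_true, Bool.and_eq_true, decide_eq_true_eq, decide_eq_true_eq,
    Bool.not_eq_true', Bool.not_eq_true'] at hf
  obtain ⟨⟨hc1, hc2⟩, hf1, hf2⟩ := hf
  have hcap : cap (4 * n + 4) q = 2 ^ q := by
    rw [cap_eq _ _ (by omega)] at hc1 ⊢
    rcases min_choice (2 ^ q) (4 * n + 4) with h1 | h1
    · exact h1
    · rw [h1] at hc1
      exact absurd hc1 (lt_irrefl _)
  have hini : ini n q = 2 ^ (8 * q) := by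
    unfold ini
    rw [hcap, ← pow_mul, mul_comm]
  have hnq : n < 2 ^ q := by rwa [hcap] at hc2
  rw [hini] at hf1 hf2
  rw [map_reverse] at hf2
  unfold nextM at h
  rw [Option.map_eq_none_iff, List.find?_eq_none] at h
  have hgd : ∀ Z : Finset (Fin n), vec Z ∈ allM P n (E.map vec) (L.map vec) q →
      ¬ Pool.Agent.Helper33.TC.Wit L.toFinset E.toFinset Z := by
    intro Z hZ hW
    apply h _ hZ
    unfold good
    rw [Bool.and_eq_true, hits_vec, avoids_vec]
    exact ⟨fun A hA => hW.1 A (List.mem_toFinset.2 hA),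
      fun B hB => hW.2 B (List.mem_toFinset.2 hB)⟩
  intro T hT
  by_contra hTL
  have hWT : Pool.Agent.Helper33.TC.Wit L.toFinset E.toFinset T := by
    constructor
    · intro A hA
      rw [Finset.inter_comm]
      exact hT.prop A (List.mem_toFinset.1 hA)
    · intro B hB hBT
      have hB' := List.mem_toFinset.1 hB
      have h1 : T ⊆ B := hT.le_of_le (hL B hB').prop hBT
      rw [Finset.Subset.antisymm h1 hBT] at hTL
      exact hTL hB'
  rcases E.toFinset.eq_empty_or_nonempty with hE | hE
  · apply hgd Finset.univ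
    · unfold allM
      rw [List.mem_cons]
      left
      apply ext_mem_K3
      · rw [length_vec]; simp
      · intro j hj
        rw [length_vec] at hj
        constructor
        · intro _
          rw [mem, List.getD_eq_getElem _ _ (by simpa using hj)]
          simp
        · intro _
          rw [mem_vec]
          exact ⟨hj, Finset.mem_univ _⟩
    · constructor
      · intro B hB
        rw [hE] at hB
        exact absurd hB (Finset.notMem_empty _)
      · intro B hB
        have hB' := List.mem_toFinset.1 hB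
        have hEe : E = [] := by
          rcases E with _ | ⟨x, E⟩
          · rfl
          · exfalso
            have : x ∈ (x :: E).toFinset := by simp
            rw [hE] at this
            exact absurd this (Finset.notMem_empty _)
        exfalso
        apply hWT.2 B hB
        subst hEe
        have : B ⊆ ∅ := (hL B hB').le_of_le (y := (∅ : Finset (Fin n))) (fun e he => by simp at he)
          (Finset.empty_subset B)
        exact this.trans (Finset.empty_subset T)
  · obtain ⟨i, e, he, P', Z, hP', hZ, hW⟩ := struct L.toFinset E.toFinset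
      (fun A hA B hB => (hL A (List.mem_toFinset.1 hA)).prop B (List.mem_toFinset.1 hB)) hE
      (fun i T => tst (8 * q) (2 ^ (8 * q)) (L.map vec) i (pre i T) = true)
      (fun i T => tst (8 * q) (2 ^ (8 * q)) ((E.map rv).map vec) (n - i)
        (pre (n - i) (rv T)) = true)
      (fun i hi T hTi hp => rej_of_tst (8 * q) i hi L T hTi (by simpa using hp))
      (by
        intro T hTn hT' hp
        have hVn : T ⊆ Pool.Agent.Helper33.TC.VI n n := by
          intro x _
          rw [Pool.Agent.Helper33.TC.mem_VI]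
          exact x.2
        rcases cov_of_tst q n hnq le_rfl L T hVn hp with h1 | ⟨f, h1, _⟩
        · exact hTn.ne_empty h1
        · have hq : 0 < 8 * q := by
            rcases Nat.eq_zero_or_pos q with hq | hq
            · rw [hq, pow_zero] at hnq
              obtain ⟨x, _⟩ := hTn
              have := x.2
              omega
            · omega
          refine hT' (f ⟨0, hq⟩) (h1 ⟨0, hq⟩).1 fun x hx => (h1 ⟨0, hq⟩).2 ?_
          rw [Finset.mem_inter, Pool.Agent.Helper33.TC.mem_VI]
          exact ⟨hx, x.2⟩)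
      (by
        intro i hi T hTi hs
        have h1 : rv T ⊆ Pool.Agent.Helper33.TC.VI n (n - i) := by
          intro x hx
          rw [ls9_mem_rv] at hx
          have h2 := hTi hx
          rw [Finset.mem_compl, Pool.Agent.Helper33.TC.mem_VI, Fin.val_rev] at h2
          rw [Pool.Agent.Helper33.TC.mem_VI]
          have := x.2
          omega
        obtain ⟨w, hw1, hw2⟩ := rej_of_tst (8 * q) (n - i) (Nat.sub_le _ _) (E.map rv) (rv T) h1
          (by simpa using hs)
        refine ⟨fun t => w (Fin.rev t), ?_, ?_⟩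
        · rwa [← ls9_sum_rv]
        · intro A hA hAT
          have h3 := hw2 (rv A) (List.mem_toFinset.2 (List.mem_map.2
            ⟨A, List.mem_toFinset.1 hA, rfl⟩)) (by
              intro x hx
              rw [Finset.mem_inter, ls9_mem_rv, Pool.Agent.Helper33.TC.mem_VI] at hx
              rw [ls9_mem_rv]
              apply hAT
              rw [Finset.mem_inter, Finset.mem_compl, Pool.Agent.Helper33.TC.mem_VI, Fin.val_rev]
              exact ⟨hx.1, by omega⟩)
          rwa [← ls9_rv_inter, ls9_sum_rv, ls9_sum_rv] at h3)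
      T hWT
    apply hgd _ _ hW
    rw [← ls9_vec i e he P' Z]
    unfold allM
    rw [List.mem_cons]
    right
    rw [List.mem_flatMap]
    refine ⟨i, List.mem_range.2 i.2, ?_⟩
    rw [List.mem_flatMap]
    refine ⟨decide (i ∈ e), ?_, ?_⟩
    · cases decide (i ∈ e) <;> simp
    · rw [List.mem_flatMap, hini, map_reverse]
      refine ⟨pre (i : ℕ) P', ?_, ?_⟩
      · rw [mem_cand _ _ hf1 _ i.2.le]
        intro j hj
        have h1 := hP' j hj.le
        rwa [ls9_pre_inter] at h1
      · rw [List.mem_map]
        refine ⟨pre (n - 1 - (i : ℕ)) (rv Z), ?_, rfl⟩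
        rw [mem_cand _ _ hf2 _ (by omega)]
        intro j hj
        have h1 := hZ (n - j) (by omega) (Nat.sub_le _ _)
        have h2 : n - (n - j) = j := by omega
        have h3 := ls9_pre_rv Z (n - j) (Nat.sub_le _ _)
        rw [h2] at h3
        simp only [h2] at h1
        rwa [h3] at h1

end Pool.Agent.Helper16.LS
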