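import Mathlib
import Pool.Agent.Helper33.TCM.Gen
import Pool.Agent.Helper16.LS.Defs
import Pool.Agent.Helper16.LS.Search
import Pool.Agent.Helper16.LS.Feas
import Pool.Agent.Helper16.LS.PT

/-!
# LS-12: one round with the search of project LS
-/

set_option autoImplicit false

namespace Pool.Agent.Helper16.LS

open Pool.Agent.Helper36.PT Pool.Agent.Helper81.VCP Pool.Agent.Helper33.TCM

variable {n : ℕ}

theorem stepX_pt' {base : State → State} (hbase : PolyTime base) :
    PolyTime (stepX feasM nextM base) :=
  stepX_pt feasM_pt nextM_pt hbase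

theorem round_M (base : State → State) (E : List (Finset (Fin n))) (v : ℕ)
    (hbase : ∃ v', RoundSpec base E v')
    (hv : RoundSpec base E v ∨ ∃ a : ℕ, (∀ A ∈ E, A.card ≤ a) ∧ (∀ B, MinTr E B → B.card ≤ a) ∧
      3 * Nat.log 2 (a / Nat.log 2 (n * (E.length + (TrF E).card) + n + 2)) + 17 ≤ v) :
    RoundSpec (stepX feasM nextM base) E v := by
  apply round_stepX feasM nextM base E v
  · intro P L q w h
    exact nextM_some P q E L w h
  · intro P L q hL hf h
    exact nextM_none P q E L hL hf h
  · exact hbase
  · rcases hv with hv | ⟨a, h1, h2, h3⟩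
    · exact Or.inl hv
    · exact Or.inr fun P L hnd hL hP =>
        feasM_of P a v E L hnd hL h1 (fun B hB => h2 B (hL B hB)) h3 hP

end Pool.Agent.Helper16.LS
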